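import Pool.Agent.Work.MP_446a37_lc.OC.Bas

/-!
MODULE Cls (M). Class sizes. `r` is a congruence of the automaton (an equivalence relation preserved
by all letters) with `r z p`, all states but `z` lie on the cycle, letters are injective on the
cycle, and `r` is not the full relation. Then `r` is trivial on the cycle.

PROOF. `C = cyc`. Suppose `r x0 y0` with `x0 ≠ y0` in `C`. For `x ∈ C` let
`N x = (C.filter (r x)).card` (classical decidability). (i) `N x ≤ N (δ x a)`: the letter `a` maps
`C.filter (r x)` injectively (`step_inj`) into `C.filter (r (δ x a))`. Hence `N x ≤ N (act δ x (a^k))`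
for all `k` and by `cyc_reach` `N` is constant on `C`, say `N = s`, and `s ≥ 2` (`N x0 ≥ 2`).
(ii) If `u, v` are states with `¬ r u v` then `¬ r (δ u x) (δ v x)` for every letter `x`: suppose
`r (δ u x) (δ v x)`. We may take `u, v ∈ C`: if `u = z` replace it by `p` (`r z p` and
`r (δ z x) (δ p x)`), same for `v`. The sets `U = C.filter (r u)`, `V = C.filter (r v)` are disjoint
with `s` elements each, and `x` maps `U ∪ V ⊆ C` injectively into the set `D` of all states related
to `δ u x`. `D ⊆ insert z (D ∩ C)`, and `D ∩ C = C.filter (r y)` for some `y ∈ C` (`y = δ u x`, or `y = p` if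
`δ u x = z`), so `D.card ≤ s + 1`. Hence `2 s ≤ s + 1`, contradicting `s ≥ 2`.
(iii) By induction over words, `¬ r u v` implies `¬ r (act δ u w) (act δ v w)`; for a reset word `w`
this contradicts reflexivity, unless `r` is the full relation.
-/

namespace Pool.Agent.Work.MP_446a37_lc.OC

open Finset

variable {Q A : Type} [Fintype Q] [DecidableEq Q] {δ : Q → A → Q} {a : A} {c : Q}

open Classical in
private theorem N_step (h : OneCl δ a c) (r : Q → Q → Prop)
    (hc : ∀ (x : A) (u v : Q), r u v → r (δ u x) (δ v x)) {x : Q} (hx : x ∈ cyc δ a c) :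
    ((cyc δ a c).filter (r x)).card ≤ ((cyc δ a c).filter (r (δ x a))).card := by
  have _ := hx
  apply Finset.card_le_card_of_injOn (fun v => δ v a)
  · intro v hv
    rw [mem_coe, mem_filter] at hv
    rw [mem_coe, mem_filter]
    exact ⟨cyc_step h hv.1, hc a x v hv.2⟩
  · intro v hv w hw e
    rw [mem_coe, mem_filter] at hv hw
    exact step_inj h hv.1 hw.1 e

open Classical in
private theorem N_rep (h : OneCl δ a c) (r : Q → Q → Prop)
    (hc : ∀ (x : A) (u v : Q), r u v → r (δ u x) (δ v x)) {x : Q} (hx : x ∈ cyc δ a c) (k : ℕ) :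
    ((cyc δ a c).filter (r x)).card ≤
      ((cyc δ a c).filter (r (act δ x (List.replicate k a)))).card := by
  induction k with
  | zero => exact le_rfl
  | succ k ih =>
    rw [act_replicate_succ]
    exact ih.trans (N_step h r hc (cyc_rep h hx k))

open Classical in
private theorem N_const (h : OneCl δ a c) (r : Q → Q → Prop)
    (hc : ∀ (x : A) (u v : Q), r u v → r (δ u x) (δ v x)) {x y : Q} (hx : x ∈ cyc δ a c)
    (hy : y ∈ cyc δ a c) :
    ((cyc δ a c).filter (r x)).card = ((cyc δ a c).filter (r y)).card := by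
  apply le_antisymm
  · obtain ⟨k, -, hk⟩ := cyc_reach h hx hy
    have h1 := N_rep h r hc hx k
    rwa [hk] at h1
  · obtain ⟨k, -, hk⟩ := cyc_reach h hy hx
    have h1 := N_rep h r hc hy k
    rwa [hk] at h1

theorem trivial_on_cycle (h : OneCl δ a c) (hsync : ∃ w, IsReset δ w) {z p : Q}
    (hp : p ∈ cyc δ a c) (hz : ∀ q, q ≠ z → q ∈ cyc δ a c)
    (hinj : ∀ (x : A), ∀ u ∈ cyc δ a c, ∀ v ∈ cyc δ a c, δ u x = δ v x → u = v)
    (r : Q → Q → Prop) (hr : Equivalence r) (hc : ∀ (x : A) (u v : Q), r u v → r (δ u x) (δ v x))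
    (hzp : r z p) (hnt : ∃ u v, ¬ r u v) :
    ∀ u ∈ cyc δ a c, ∀ v ∈ cyc δ a c, r u v → u = v := by
  classical
  by_contra hcon
  push Not at hcon
  obtain ⟨x0, hx0, y0, hy0, hr0, hne⟩ := hcon
  -- a representative on the cycle
  have hrep : ∀ u : Q, ∃ u' ∈ cyc δ a c, r u u' := by
    intro u
    by_cases hu : u ∈ cyc δ a c
    · exact ⟨u, hu, hr.refl u⟩
    · have huz : u = z := by
        by_contra hne'
        exact hu (hz u hne')
      exact ⟨p, hp, huz ▸ hzp⟩
  have hs : ∀ x ∈ cyc δ a c, ((cyc δ a c).filter (r x)).card =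
      ((cyc δ a c).filter (r x0)).card := fun x hx => N_const h r hc hx hx0
  have hs2 : 2 ≤ ((cyc δ a c).filter (r x0)).card := by
    have h1 : ({x0, y0} : Finset Q) ⊆ (cyc δ a c).filter (r x0) := by
      intro q hq
      rw [mem_insert, mem_singleton] at hq
      rw [mem_filter]
      rcases hq with rfl | rfl
      · exact ⟨hx0, hr.refl _⟩
      · exact ⟨hy0, hr0⟩
    have h2 := card_le_card h1
    rwa [card_pair hne] at h2
  have hstep : ∀ (x : A) (u v : Q), ¬ r u v → ¬ r (δ u x) (δ v x) := by
    intro x u v huv hd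
    obtain ⟨u', hu', hru⟩ := hrep u
    obtain ⟨v', hv', hrv⟩ := hrep v
    have huv' : ¬ r u' v' := fun h1 => huv (hr.trans hru (hr.trans h1 (hr.symm hrv)))
    have hd' : r (δ u' x) (δ v' x) :=
      hr.trans (hr.symm (hc x u u' hru)) (hr.trans hd (hc x v v' hrv))
    obtain ⟨y, hy, hry⟩ := hrep (δ u' x)
    have hdisj : Disjoint ((cyc δ a c).filter (r u')) ((cyc δ a c).filter (r v')) := by
      rw [Finset.disjoint_left]
      intro w hw hw'
      rw [mem_filter] at hw hw'
      exact huv' (hr.trans hw.2 (hr.symm hw'.2))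
    have hcard : (((cyc δ a c).filter (r u')) ∪ ((cyc δ a c).filter (r v'))).card ≤
        (insert z ((cyc δ a c).filter (r y))).card := by
      apply Finset.card_le_card_of_injOn (fun w => δ w x)
      · intro w hw
        rw [mem_coe, mem_union, mem_filter, mem_filter] at hw
        rw [mem_coe, mem_insert, mem_filter]
        by_cases hwz : δ w x = z
        · exact Or.inl hwz
        · refine Or.inr ⟨hz _ hwz, ?_⟩
          rcases hw with hw | hw
          · exact hr.trans (hr.symm hry) (hc x u' w hw.2)
          · exact hr.trans (hr.symm hry) (hr.trans hd' (hc x v' w hw.2))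
      · intro w hw w' hw' e
        rw [mem_coe, mem_union, mem_filter, mem_filter] at hw hw'
        have h1 : w ∈ cyc δ a c := by
          rcases hw with hw | hw
          · exact hw.1
          · exact hw.1
        have h2 : w' ∈ cyc δ a c := by
          rcases hw' with hw' | hw'
          · exact hw'.1
          · exact hw'.1
        exact hinj x w h1 w' h2 e
    rw [card_union_of_disjoint hdisj, hs u' hu', hs v' hv'] at hcard
    have h3 := hcard.trans (card_insert_le _ _)
    rw [hs y hy] at h3
    omega
  have hword : ∀ (w : List A) (u v : Q), ¬ r u v → ¬ r (act δ u w) (act δ v w) := by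
    intro w
    induction w with
    | nil => intro u v h1; exact h1
    | cons x w ih => intro u v h1; exact ih _ _ (hstep x u v h1)
  obtain ⟨w, hw⟩ := hsync
  obtain ⟨u, v, huv⟩ := hnt
  apply hword w u v huv
  rw [hw u v]
  exact hr.refl _

end Pool.Agent.Work.MP_446a37_lc.OC
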