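import Pool.Agent.Work.MP_446a37_lc.OC.Defs

/-!
MODULE Inv (S-M). If `z, p` is the only pair of states that a letter can merge, every nonzero
invariant subspace of the vectors of sum zero contains `e_z - e_p`; relations `e_x - e_y ∈ W`.

PROOF of `single_mem`. (`push` is linear in `v`: prove `push_add`, `push_smul` or build the linear map.)
Suppose `e_z - e_p ∉ W`. (i) For every letter `b` and `v ∈ W`, `push δ b v = 0` implies `v = 0`: for
`q ≠ z, p` the fibre of `δ q b` is `{q}` (by `hk`), so `0 = push δ b v (δ q b) = v q`. So `v` is supported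
on `{z, p}` and `v z + v p = 0` (sum zero, `z ≠ p`): `v = v z • (e_z - e_p)`; if `v z ≠ 0` then
`e_z - e_p ∈ W`. (ii) By induction on the word `w`: `v ∈ W`, `∀ t, ∑_{q : act δ q w = t} v q = 0` implies
`v = 0` (peel off the first letter: `∑_{act q (b :: w) = t} v q = ∑_{act q' w = t} push δ b v q'`).
(iii) For a reset word `w` with value `q0` the sums are `0` for `t ≠ q0` and `∑ v = 0` for `t = q0`.
So `W = ⊥`.

PROOF of `push_diff`: `push δ b (e_x - e_y) = e_{δ x b} - e_{δ y b}`.
PROOF of `top_of_all`: if `e_x - e_y ∈ W` for all `x, y` and `∑ v = 0` then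
`v = ∑_q v q • (e_q - e_c)` for any fixed state `c`.
-/

namespace Pool.Agent.Work.MP_446a37_lc.OC

open Finset

variable {Q A : Type} [Fintype Q] [DecidableEq Q] {δ : Q → A → Q}

/-- the vector `e_x - e_y` -/
def dv (x y : Q) : Q → ℂ := Pi.single x 1 - Pi.single y 1

theorem push_diff (δ : Q → A → Q) (b : A) (x y : Q) :
    push δ b (dv x y) = dv (δ x b) (δ y b) := by
  have h1 : ∀ z : Q, push δ b (Pi.single z 1) = Pi.single (δ z b) 1 := by
    intro z
    ext p
    rw [push, Finset.sum_eq_single z]
    · by_cases hp : δ z b = p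
      · rw [if_pos hp, hp, Pi.single_eq_same, Pi.single_eq_same]
      · rw [if_neg hp, Pi.single_eq_of_ne (fun h => hp h.symm)]
    · intro q _ hq
      rw [Pi.single_eq_of_ne hq, ite_self]
    · intro h
      exact absurd (mem_univ z) h
  have h2 : push δ b (dv x y) = push δ b (Pi.single x 1) - push δ b (Pi.single y 1) := by
    ext p
    rw [Pi.sub_apply, push, push, push, ← Finset.sum_sub_distrib]
    refine Finset.sum_congr rfl fun q _ => ?_
    rw [dv, Pi.sub_apply]
    split_ifs <;> simp
  rw [h2, h1, h1, dv]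

private theorem sum_push (δ : Q → A → Q) (b : A) (v : Q → ℂ) (g : Q → ℂ) :
    ∑ p, push δ b v p * g p = ∑ q, v q * g (δ q b) := by
  simp only [push, Finset.sum_mul]
  rw [Finset.sum_comm]
  refine Finset.sum_congr rfl fun q _ => ?_
  rw [Finset.sum_eq_single (δ q b)]
  · rw [if_pos rfl]
  · intro p _ hp
    rw [if_neg (fun h => hp h.symm), zero_mul]
  · intro h
    exact absurd (mem_univ _) h

theorem single_mem (hsync : ∃ w, IsReset δ w) (W : Submodule ℂ (Q → ℂ))
    (h0 : ∀ v ∈ W, ∑ q, v q = 0) (hW : ∀ b, ∀ v ∈ W, push δ b v ∈ W) (hne : W ≠ ⊥) {z p : Q}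
    (hzp : z ≠ p)
    (hk : ∀ (x : A) (u v : Q), u ≠ v → δ u x = δ v x → (u = z ∧ v = p) ∨ (u = p ∧ v = z)) :
    dv z p ∈ W := by
  classical
  by_contra hnot
  -- letters are injective on `W`
  have h1 : ∀ (b : A) (v : Q → ℂ), v ∈ W → push δ b v = 0 → v = 0 := by
    intro b v hv hp
    have h2 : ∀ q, q ≠ z → q ≠ p → v q = 0 := by
      intro q hqz hqp
      have h3 : push δ b v (δ q b) = v q := by
        rw [push, Finset.sum_eq_single q]
        · rw [if_pos rfl]
        · intro u _ hu
          rw [if_neg]
          intro h4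
          rcases hk b u q hu h4 with ⟨_, h5⟩ | ⟨_, h5⟩
          · exact hqp h5
          · exact hqz h5
        · intro h
          exact absurd (mem_univ _) h
      rw [hp] at h3
      exact h3.symm
    have h4 : v = v z • dv z p := by
      have h5 := h0 v hv
      have h6 : v z + v p = 0 := by
        rw [← h5, ← Finset.sum_pair hzp]
        refine Finset.sum_subset (subset_univ _) fun q _ hq => ?_
        simp only [mem_insert, mem_singleton, not_or] at hq
        exact h2 q hq.1 hq.2
      ext q
      rw [Pi.smul_apply, dv, Pi.sub_apply, smul_eq_mul]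
      by_cases hqz : q = z
      · subst hqz
        rw [Pi.single_eq_same, Pi.single_eq_of_ne hzp]
        ring
      · by_cases hqp : q = p
        · subst hqp
          rw [Pi.single_eq_same, Pi.single_eq_of_ne hqz]
          linear_combination h6
        · rw [h2 q hqz hqp, Pi.single_eq_of_ne hqz, Pi.single_eq_of_ne hqp]
          ring
    by_cases h5 : v z = 0
    · rw [h4, h5, zero_smul]
    · exfalso
      apply hnot
      have h6 : (v z)⁻¹ • v ∈ W := W.smul_mem _ hv
      have h7 : (v z)⁻¹ • v = dv z p := by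
        have h8 : (v z)⁻¹ • v = (v z)⁻¹ • (v z • dv z p) := congrArg (fun u => (v z)⁻¹ • u) h4
        rw [h8, smul_smul, inv_mul_cancel₀ h5, one_smul]
      rwa [h7] at h6
  -- words
  have h2 : ∀ (w : List A) (v : Q → ℂ), v ∈ W → (∀ g : Q → ℂ, ∑ q, v q * g (act δ q w) = 0) →
      v = 0 := by
    intro w
    induction w with
    | nil =>
      intro v _ hg
      ext q
      have h3 := hg (Pi.single q 1)
      simp only [act_nil] at h3
      rw [Finset.sum_eq_single q] at h3
      · rwa [Pi.single_eq_same, mul_one] at h3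
      · intro u _ hu
        rw [Pi.single_eq_of_ne hu, mul_zero]
      · intro h
        exact absurd (mem_univ _) h
    | cons b w ih =>
      intro v hv hg
      refine h1 b v hv (ih (push δ b v) (hW b v hv) fun g => ?_)
      rw [sum_push δ b v fun q => g (act δ q w)]
      exact hg g
  obtain ⟨w, hw⟩ := hsync
  obtain ⟨v, hv, hv0⟩ := Submodule.exists_mem_ne_zero_of_ne_bot hne
  apply hv0
  refine h2 w v hv fun g => ?_
  have h3 : ∀ q ∈ (univ : Finset Q), v q * g (act δ q w) = v q * g (act δ z w) := by
    intro q _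
    rw [hw q z]
  rw [Finset.sum_congr rfl h3, ← Finset.sum_mul, h0 v hv, zero_mul]

theorem top_of_all (W : Submodule ℂ (Q → ℂ)) (h : ∀ x y : Q, dv x y ∈ W) (v : Q → ℂ)
    (hv : ∑ q, v q = 0) : v ∈ W := by
  rcases isEmpty_or_nonempty Q with hQ | ⟨⟨c⟩⟩
  · have e : v = 0 := by
      ext q
      exact (hQ.false q).elim
    rw [e]
    exact W.zero_mem
  · have e : v = ∑ q, v q • dv q c := by
      ext u
      rw [Finset.sum_apply]
      simp only [dv, Pi.smul_apply, Pi.sub_apply, smul_eq_mul, mul_sub, Finset.sum_sub_distrib]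
      rw [← Finset.sum_mul, hv, zero_mul, sub_zero, Finset.sum_eq_single u]
      · rw [Pi.single_eq_same, mul_one]
      · intro q _ hq
        rw [Pi.single_eq_of_ne (fun h => hq h.symm), mul_zero]
      · intro h
        exact absurd (mem_univ _) h
    rw [e]
    exact W.sum_mem fun q _ => W.smul_mem _ (h q c)

end Pool.Agent.Work.MP_446a37_lc.OC
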