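import Pool.Agent.Work.MP_446a37_lc.OC.Cer

/-!
MODULE Quo (S-M). If identifying `z` with `p` is a congruence, there is a reset word of length
`≤ (n-2)^2 + 1`.

PROOF. `C = cyc`, `n - 1` states (`hn`, `card_cyc`). `ρ : Q → Q`, `ρ z = p`, `ρ q = q` otherwise; its
values are in `C`. Automaton on the subtype `B = {q // q ∈ C}`: `δ' x b = ⟨ρ (δ x b), _⟩`. By `hcong`,
`ρ (δ q b) = ρ (δ (ρ q) b)` for all `q, b` (trivial for `q ≠ z`), so by induction
`(act δ' ⟨ρ q, _⟩ w : Q) = ρ (act δ q w)`. So `δ'` has a reset word. The letter `a` keeps `C` invariant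
(`cyc_step`; `z ∉ C`), so `act δ' x (replicate k a) = act δ x (replicate k a)` and `OneCl δ' a ⟨c, _⟩`
holds by `cyc_reach`. `Fintype.card B = n - 1` (`Fintype.card_coe`). `cerny_oc` for `δ'` gives a reset
word `w'` of length `≤ (n-2)^2` for `δ'`; `w' ++ [a]` is a reset word of `δ`: for states `q, q'`,
`ρ (act δ q w') = ρ (act δ q' w')`, so the two states are equal or are `z` and `p`, and
`δ z a = δ p a`.
-/

namespace Pool.Agent.Work.MP_446a37_lc.OC

open Finset

variable {Q A : Type} [Fintype Q] [DecidableEq Q] {δ : Q → A → Q} {a : A} {c : Q}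

theorem quotient_bound (h : OneCl δ a c) (hsync : ∃ w, IsReset δ w)
    (hn : ell δ a c + 1 = Fintype.card Q) {z p : Q} (hz : z ∉ cyc δ a c) (hp : p ∈ cyc δ a c)
    (hzc : ∀ q, q ≠ z → q ∈ cyc δ a c) (hza : δ z a = δ p a)
    (hcong : ∀ x : A, δ z x = δ p x ∨ (δ z x = z ∧ δ p x = p) ∨ (δ z x = p ∧ δ p x = z)) :
    ∃ w, IsReset δ w ∧ w.length ≤ (Fintype.card Q - 2) ^ 2 + 1 := by
  have hpz : p ≠ z := by
    rintro rfl
    exact hz hp
  let ρ : Q → Q := fun q => if q = z then p else q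
  have hρz : ρ z = p := if_pos rfl
  have hρn : ∀ q, q ≠ z → ρ q = q := fun q hq => if_neg hq
  have hρc : ∀ q, q ∈ cyc δ a c → ρ q = q := fun q hq => hρn q (by
    rintro rfl
    exact hz hq)
  have hρ : ∀ q, ρ q ∈ cyc δ a c := by
    intro q
    by_cases hq : q = z
    · rw [hq, hρz]
      exact hp
    · rw [hρn q hq]
      exact hzc q hq
  have hcong' : ∀ (q : Q) (x : A), ρ (δ (ρ q) x) = ρ (δ q x) := by
    intro q x
    by_cases hq : q = z
    · rw [hq, hρz]
      rcases hcong x with e | ⟨e1, e2⟩ | ⟨e1, e2⟩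
      · rw [e]
      · rw [e1, e2, hρz, hρn p hpz]
      · rw [e1, e2, hρz, hρn p hpz]
    · rw [hρn q hq]
  let δ' : {q // q ∈ cyc δ a c} → A → {q // q ∈ cyc δ a c} :=
    fun q x => ⟨ρ (δ q.1 x), hρ _⟩
  have hact : ∀ (w : List A) (q : Q), (act δ' ⟨ρ q, hρ q⟩ w).1 = ρ (act δ q w) := by
    intro w
    induction w with
    | nil => intro q; rfl
    | cons x w ih =>
      intro q
      rw [act_cons, act_cons]
      have e : δ' ⟨ρ q, hρ q⟩ x = ⟨ρ (δ q x), hρ _⟩ := Subtype.ext (hcong' q x)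
      rw [e]
      exact ih (δ q x)
  have hB : ∀ (w : List A) (b : {q // q ∈ cyc δ a c}), (act δ' b w).1 = ρ (act δ b.1 w) := by
    intro w b
    have e : b = ⟨ρ b.1, hρ b.1⟩ := Subtype.ext (hρc b.1 b.2).symm
    conv_lhs => rw [e]
    exact hact w b.1
  have hsync' : ∃ w, IsReset δ' w := by
    obtain ⟨w, hw⟩ := hsync
    refine ⟨w, fun b b' => Subtype.ext ?_⟩
    rw [hB, hB, hw b.1 b'.1]
  have hone : OneCl δ' a ⟨c, base_mem h⟩ := by
    intro b
    obtain ⟨k, -, hk⟩ := cyc_reach h b.2 (base_mem h)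
    refine ⟨k, Subtype.ext ?_⟩
    rw [hB, hk]
    exact hρc c (base_mem h)
  obtain ⟨w, hw, hlen⟩ := cerny_oc hone hsync'
  rw [Fintype.card_coe, card_cyc h] at hlen
  have hlen' : w.length ≤ (Fintype.card Q - 2) ^ 2 := by
    have e : Fintype.card Q - 2 = ell δ a c - 1 := by omega
    rw [e]
    exact hlen
  refine ⟨w ++ [a], ?_, ?_⟩
  · intro q q'
    have e1 : ρ (act δ q w) = ρ (act δ q' w) := by
      have e2 : act δ' ⟨ρ q, hρ q⟩ w = act δ' ⟨ρ q', hρ q'⟩ w := hw _ _
      rw [← hact w q, ← hact w q', e2]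
    rw [act_append, act_append]
    change δ (act δ q w) a = δ (act δ q' w) a
    by_cases h1 : act δ q w = z
    · by_cases h2 : act δ q' w = z
      · rw [h1, h2]
      · rw [h1, hρz, hρn _ h2] at e1
        rw [h1, ← e1, hza]
    · by_cases h2 : act δ q' w = z
      · rw [h2, hρz, hρn _ h1] at e1
        rw [h2, e1, hza]
      · rw [hρn _ h1, hρn _ h2] at e1
        rw [e1]
  · rw [List.length_append, List.length_singleton]
    omega

end Pool.Agent.Work.MP_446a37_lc.OC
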