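import Pool.Agent.Work.MP_446a37_lc.OC.Bas

/-!
MODULE Sp (M). Cycle of length `n - 1`, all words of length at most two injective on the cycle: the
only pair of states that a letter can merge is `z, p`.

`z` is the state outside the cycle, `p` the state of the cycle with `δ p a = δ z a`.
PROOF. `C = cyc`, `C.card = n - 1` (`card_cyc`), so `univ \ C = {z}`. `δ z a ∈ C` by `to_cyc` (`k = 1`).
`p`: the letter `a` permutes the cycle (`step_inj` + finiteness), take `p ∈ C` with `δ p a = δ z a`.
For a letter `b` (words `[b]`, `[b, a]` injective on `C`): `C.image (δ · b)` has `n - 1` elements, so it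
misses exactly one state `y`; it cannot contain both `z` and `p` (they have the same image under
`a`, while `[b, a]` is injective on `C`), so `y = z` or `y = p`.
If `y = z` for all letters `b`, all letters map `C` bijectively onto `C`, so all words are injective
on `C`, which has `≥ 2` states: no reset word. So some letter `b0` misses `p`, i.e. it maps `C` onto
`C' = (C \ {p}) ∪ {z}`. Then for every letter `x` the word `[b0, x]` is injective on `C`, so `x` is
injective on `C'`. Let `δ u x = δ v x`, `u ≠ v`. Since `x` is injective on `C`, one of them, say `u`,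
is `z`, and `v ∈ C`. Since `x` is injective on `C'`, `v = p`.
-/

namespace Pool.Agent.Work.MP_446a37_lc.OC

open Finset

variable {Q A : Type} [Fintype Q] [DecidableEq Q] {δ : Q → A → Q} {a : A} {c : Q}

theorem special (h : OneCl δ a c) (hsync : ∃ w, IsReset δ w) (hl : 2 ≤ ell δ a c)
    (hn : ell δ a c + 1 = Fintype.card Q)
    (hinj : ∀ u : List A, u.length ≤ 2 → ∀ x ∈ cyc δ a c, ∀ y ∈ cyc δ a c,
      act δ x u = act δ y u → x = y) :
    ∃ z p : Q, z ∉ cyc δ a c ∧ p ∈ cyc δ a c ∧ δ z a = δ p a ∧
      (∀ q, q ≠ z → q ∈ cyc δ a c) ∧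
      ∀ (x : A) (u v : Q), u ≠ v → δ u x = δ v x → (u = z ∧ v = p) ∨ (u = p ∧ v = z) := by
  have hcard : (cyc δ a c).card = ell δ a c := card_cyc h
  have hcompl : ((cyc δ a c)ᶜ).card = 1 := by
    rw [Finset.card_compl, hcard]
    omega
  obtain ⟨z, hz⟩ := Finset.card_eq_one.mp hcompl
  have hzC : z ∉ cyc δ a c := by
    rw [← Finset.mem_compl, hz]
    exact Finset.mem_singleton_self z
  have hother : ∀ q, q ≠ z → q ∈ cyc δ a c := by
    intro q hq
    by_contra h1
    rw [← Finset.mem_compl, hz, Finset.mem_singleton] at h1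
    exact hq h1
  have hza : δ z a ∈ cyc δ a c := by
    have h1 := to_cyc h z (k := 1) (by omega)
    simpa [act] using h1
  -- the state `p`
  have hpC : act δ (δ z a) (List.replicate (ell δ a c - 1) a) ∈ cyc δ a c := cyc_rep h hza _
  have hpa : δ z a = δ (act δ (δ z a) (List.replicate (ell δ a c - 1) a)) a := by
    have h1 := act_replicate_succ δ (δ z a) a (ell δ a c - 1)
    rw [Nat.sub_add_cancel (ell_pos h), cyc_period h hza] at h1
    exact h1
  generalize act δ (δ z a) (List.replicate (ell δ a c - 1) a) = p at hpC hpa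
  have hzp : z ≠ p := fun e => hzC (e ▸ hpC)
  -- letters are injective on the cycle
  have hinj1 : ∀ b : A, ∀ x ∈ cyc δ a c, ∀ y ∈ cyc δ a c, δ x b = δ y b → x = y := by
    intro b x hx y hy e
    exact hinj [b] (by simp) x hx y hy (by simpa [act] using e)
  -- some letter reaches `z`
  have hb0 : ∃ b : A, ∃ x ∈ cyc δ a c, δ x b = z := by
    by_contra hno
    push Not at hno
    have hstab : ∀ b : A, ∀ x ∈ cyc δ a c, δ x b ∈ cyc δ a c :=
      fun b x hx => hother _ (hno b x hx)
    have hword : ∀ w : List A, ∀ x ∈ cyc δ a c, ∀ y ∈ cyc δ a c, act δ x w = act δ y w → x = y := by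
      intro w
      induction w with
      | nil => intro x _ y _ e; exact e
      | cons b w ih =>
        intro x hx y hy e
        rw [act_cons, act_cons] at e
        exact hinj1 b x hx y hy (ih _ (hstab b x hx) _ (hstab b y hy) e)
    obtain ⟨w, hw⟩ := hsync
    have h2 : 1 < (cyc δ a c).card := by rw [hcard]; omega
    obtain ⟨x, hx, y, hy, hxy⟩ := Finset.one_lt_card.mp h2
    exact hxy (hword w x hx y hy (hw x y))
  obtain ⟨b, x0, hx0, hx0z⟩ := hb0
  have himg_p : p ∉ (cyc δ a c).image (fun q => δ q b) := by
    intro h1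
    obtain ⟨y, hy, hyp⟩ := Finset.mem_image.mp h1
    have h2 : act δ x0 [b, a] = act δ y [b, a] := by
      change δ (δ x0 b) a = δ (δ y b) a
      rw [hx0z, hyp]
      exact hpa
    have h3 := hinj [b, a] (by simp) x0 hx0 y hy h2
    apply hzp
    rw [← hx0z, ← hyp, h3]
  have himg_card : ((cyc δ a c).image (fun q => δ q b)).card = ell δ a c := by
    rw [Finset.card_image_of_injOn, hcard]
    intro x hx y hy e
    exact hinj1 b x (by simpa using hx) y (by simpa using hy) e
  have himg : ∀ q, q ≠ p → q ∈ (cyc δ a c).image (fun q => δ q b) := by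
    intro q hq
    by_contra h1
    have h2 : (cyc δ a c).image (fun q => δ q b) ⊆ (({q, p} : Finset Q)ᶜ) := by
      intro y hy
      rw [Finset.mem_compl, Finset.mem_insert, Finset.mem_singleton]
      rintro (rfl | rfl)
      · exact h1 hy
      · exact himg_p hy
    have h3 := Finset.card_le_card h2
    rw [himg_card, Finset.card_compl, Finset.card_pair hq] at h3
    omega
  refine ⟨z, p, hzC, hpC, hpa, hother, fun x u v huv e => ?_⟩
  have key : ∀ u v : Q, u ≠ p → v ≠ p → δ u x = δ v x → u = v := by
    intro u v hu hv e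
    obtain ⟨u', hu', rfl⟩ := Finset.mem_image.mp (himg u hu)
    obtain ⟨v', hv', rfl⟩ := Finset.mem_image.mp (himg v hv)
    have h1 : u' = v' := hinj [b, x] (by simp) u' hu' v' hv' e
    rw [h1]
  have hup : u = p ∨ v = p := by
    by_contra h1
    push Not at h1
    exact huv (key u v h1.1 h1.2 e)
  have huz : u = z ∨ v = z := by
    by_contra h1
    push Not at h1
    exact huv (hinj1 x u (hother u h1.1) v (hother v h1.2) e)
  rcases hup with h1 | h1
  · right
    refine ⟨h1, ?_⟩
    rcases huz with h2 | h2
    · exact absurd (h2.symm.trans h1) hzp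
    · exact h2
  · left
    refine ⟨?_, h1⟩
    rcases huz with h2 | h2
    · exact h2
    · exact absurd (h2.symm.trans h1) hzp

end Pool.Agent.Work.MP_446a37_lc.OC
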