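import Pool.Agent.Work.MP_446a37_lc.OC.Cer
import Pool.Agent.Work.MP_446a37_lc.OC.Sp
import Pool.Agent.Work.MP_446a37_lc.OC.Inv
import Pool.Agent.Work.MP_446a37_lc.OC.Cls
import Pool.Agent.Work.MP_446a37_lc.OC.Quo
import Pool.Agent.Work.MP_446a37_lc.Rank

/-!
Assembly: a synchronizing one-cluster automaton without a reset word shorter than `(n - 1) ^ 2` is
extremal and irreducible.
-/

namespace Pool.Agent.Work.MP_446a37_lc.OC

open Finset

variable {Q A : Type} [Fintype Q] [DecidableEq Q] {δ : Q → A → Q} {a : A} {c : Q}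

/-- cycle of length `n - 1` -/
theorem irreducible_pred (h : OneCl δ a c) (hsync : ∃ w, IsReset δ w) (hl : 2 ≤ ell δ a c)
    (hn : ell δ a c + 1 = Fintype.card Q)
    (hno : ∀ u, IsReset δ u → (Fintype.card Q - 1) ^ 2 ≤ u.length) : Irreducible δ := by
  classical
  obtain ⟨m, hm⟩ : ∃ m, ell δ a c = m + 2 := ⟨ell δ a c - 2, by omega⟩
  have hinj : ∀ u : List A, u.length ≤ 2 → ∀ x ∈ cyc δ a c, ∀ y ∈ cyc δ a c,
      act δ x u = act δ y u → x = y := by
    intro u hu x hx y hy hxy
    by_contra hne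
    obtain ⟨w, hw, hwl⟩ := bound_of_collision h hsync hl u hx hy hne hxy
    have h1 := hno w hw
    rw [← hn, hm] at h1 hwl
    have e1 : m + 2 + 1 - (m + 2) = 1 := by omega
    have e2 : m + 2 - 2 = m := by omega
    have e3 : 2 * (m + 2 + 1) - (m + 2) = m + 4 := by omega
    have e4 : m + 2 + 1 - 1 = m + 2 := by omega
    rw [e1, e2, e3] at hwl
    rw [e4] at h1
    nlinarith
  obtain ⟨z, p, hz, hp, hza, hzc, hk⟩ := special h hsync hl hn hinj
  intro W h0 hW
  by_cases hne : W = ⊥
  · exact Or.inl hne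
  right
  have hzp : z ≠ p := by
    rintro rfl
    exact hz hp
  have hd := single_mem hsync W h0 hW hne hzp hk
  have hr : Equivalence fun x y : Q => dv x y ∈ W := by
    refine ⟨fun x => ?_, fun {x y} hxy => ?_, fun {x y t} hxy hyt => ?_⟩
    · have e : dv x x = 0 := by rw [dv, sub_self]
      rw [e]
      exact W.zero_mem
    · have e : dv y x = -dv x y := by rw [dv, dv, neg_sub]
      rw [e]
      exact W.neg_mem hxy
    · have e : dv x t = dv x y + dv y t := by rw [dv, dv, dv, sub_add_sub_cancel]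
      rw [e]
      exact W.add_mem hxy hyt
  have hc : ∀ (x : A) (u v : Q), dv u v ∈ W → dv (δ u x) (δ v x) ∈ W := by
    intro x u v huv
    rw [← push_diff]
    exact hW x _ huv
  by_cases hall : ∀ u v : Q, dv u v ∈ W
  · exact fun v hv => top_of_all W hall v hv
  exfalso
  push Not at hall
  have htriv := trivial_on_cycle h hsync hp hzc
    (fun x u hu v hv e => hinj [x] (by simp) u hu v hv e) (fun x y : Q => dv x y ∈ W) hr hc hd hall
  have hcong : ∀ x : A, δ z x = δ p x ∨ (δ z x = z ∧ δ p x = p) ∨ (δ z x = p ∧ δ p x = z) := by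
    intro x
    have h1 := hc x z p hd
    by_cases hz1 : δ z x = z
    · by_cases hp1 : δ p x = z
      · exact Or.inl (by rw [hz1, hp1])
      · refine Or.inr (Or.inl ⟨hz1, ?_⟩)
        rw [hz1] at h1
        exact (htriv p hp _ (hzc _ hp1) (hr.trans (hr.symm hd) h1)).symm
    · by_cases hp1 : δ p x = z
      · refine Or.inr (Or.inr ⟨?_, hp1⟩)
        rw [hp1] at h1
        exact htriv _ (hzc _ hz1) p hp (hr.trans h1 hd)
      · exact Or.inl (htriv _ (hzc _ hz1) _ (hzc _ hp1) h1)
  obtain ⟨w, hw, hwl⟩ := quotient_bound h hsync hn hz hp hzc hza hcong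
  have h1 := hno w hw
  rw [← hn, hm] at h1 hwl
  have e4 : m + 2 + 1 - 1 = m + 2 := by omega
  have e5 : m + 2 + 1 - 2 = m + 1 := by omega
  rw [e4] at h1
  rw [e5] at hwl
  nlinarith

/-- two states -/
private theorem irreducible_two (δ : Q → A → Q) (hn : Fintype.card Q = 2) : Irreducible δ := by
  intro W h0 _
  by_cases hne : W = ⊥
  · exact Or.inl hne
  right
  obtain ⟨x, y, hxy, hu⟩ : ∃ x y : Q, x ≠ y ∧ univ = {x, y} :=
    Finset.card_eq_two.1 (by rw [card_univ, hn])
  obtain ⟨v, hv, hv0⟩ := Submodule.exists_mem_ne_zero_of_ne_bot hne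
  have hs : ∀ u : Q → ℂ, ∑ q, u q = u x + u y := by
    intro u
    rw [hu, Finset.sum_pair hxy]
  have hmem : ∀ q : Q, q = x ∨ q = y := by
    intro q
    have : q ∈ (univ : Finset Q) := mem_univ q
    rw [hu] at this
    simpa using this
  have h1 := h0 v hv
  rw [hs] at h1
  have hvx : v x ≠ 0 := by
    intro h2
    apply hv0
    ext q
    rcases hmem q with rfl | rfl
    · exact h2
    · rw [h2, zero_add] at h1
      exact h1
  intro u hu'
  rw [hs] at hu'
  have e : u = (u x / v x) • v := by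
    ext q
    rcases hmem q with rfl | rfl
    · rw [Pi.smul_apply, smul_eq_mul, div_mul_cancel₀ _ hvx]
    · rw [Pi.smul_apply, smul_eq_mul]
      have e1 : v q = - v x := by linear_combination h1
      have e2 : u q = - u x := by linear_combination hu'
      rw [e1, e2]
      field_simp
  rw [e]
  exact W.smul_mem _ hv

theorem one_cluster (h : OneCl δ a c) (hsync : ∃ w, IsReset δ w)
    (hno : ∀ u, IsReset δ u → (Fintype.card Q - 1) ^ 2 ≤ u.length) :
    Extremal δ ∧ Irreducible δ := by
  obtain ⟨w, hw, hwl⟩ := cerny_oc h hsync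
  have hx : Extremal δ := ⟨⟨w, hw, le_antisymm hwl (hno w hw)⟩, hno⟩
  refine ⟨hx, ?_⟩
  have hle := ell_le h
  have hpos := ell_pos h
  by_cases h2 : ell δ a c + 2 ≤ Fintype.card Q
  · obtain ⟨w, hw, hwl⟩ := strict_oc h hsync h2
    have := hno w hw
    omega
  by_cases h0 : ell δ a c = Fintype.card Q
  · refine circular δ hx a fun q q' => ?_
    have hu : cyc δ a c = univ := by
      rw [← card_eq_iff_eq_univ, card_cyc h, h0]
    obtain ⟨k, -, hk⟩ := cyc_reach h (x := q) (y := q') (by rw [hu]; exact mem_univ _)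
      (by rw [hu]; exact mem_univ _)
    exact ⟨k, hk⟩
  by_cases h1 : 2 ≤ ell δ a c
  · exact irreducible_pred h hsync h1 (by omega) hno
  · exact irreducible_two δ (by omega)

end Pool.Agent.Work.MP_446a37_lc.OC
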