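import Pool.Agent.Work.MP_446a37_lc.OC.Defs

/-!
MODULE Bas (S-M). Elementary facts on the cycle of a one-cluster letter. All by
`Function.minimalPeriod` of `g = fun q => δ q a` (`act_replicate : act δ q (replicate k a) = g^[k] q`
is in Aut.lean, where `exists_equiv` has similar arguments; read it first).

* `ell_pos`: `h (δ c a)` gives `k` with `g^[k] (g c) = c`, so `c` is periodic.
* `card_cyc`: `Function.iterate_injOn_Iio_minimalPeriod` and `card_image_of_injOn`.
* `cyc_step`: `g^[i+1] c`, use `Function.iterate_mod_minimalPeriod_eq` to reduce the exponent.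
  In general `g^[j] c ∈ cyc` for all `j`.
* `cyc_period`: `x = g^[i] c`, `g^[l] (g^[i] c) = g^[i] (g^[l] c) = g^[i] c`.
* `step_inj`: apply `g^[l-1]` and `cyc_period`.
* `cyc_reach`: `x = g^[i] c`, `y = g^[j] c`, `k = (j + (l - i)) % l`.
* `to_cyc`: let `k` be any number with `card Q ≤ ell + k`. If `g^[k] q` is not in `cyc` then none of
  `q, g q, ..., g^[k] q` is in `cyc` (by `cyc_step`), and they are `k+1` distinct states: if
  `g^[i] q = g^[j] q` with `i < j` then the state `x = g^[i] q` satisfies `g^[j-i] x = x`, so it is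
  `g^[(j-i) m] x` for all `m`; by `h` some `g^[r] x = c`, take `m` with `(j-i) m ≥ r`, then
  `x = g^[(j-i) m - r] c ∈ cyc`. So `k + 1 + ell ≤ card Q`, a contradiction.
* `sg_step`: `g` maps `cyc` to itself and is injective there, so it permutes `cyc`
  (`Finset.sum_bij` or `Finset.surj_on_of_inj_on_of_card_le`).
* `pw_rep_period`: `act δ q (replicate (k + l) a) = act δ q (replicate k a)` for `card Q ≤ ell + k`
  (by `to_cyc` and `cyc_period`).
-/

namespace Pool.Agent.Work.MP_446a37_lc.OC

open Finset

variable {Q A : Type} [Fintype Q] [DecidableEq Q] {δ : Q → A → Q} {a : A} {c : Q}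

omit [Fintype Q] [DecidableEq Q] in
private theorem per_c (h : OneCl δ a c) : c ∈ Function.periodicPts (fun q => δ q a) := by
  obtain ⟨k, hk⟩ := h (δ c a)
  rw [act_replicate] at hk
  refine ⟨k + 1, Nat.succ_pos k, ?_⟩
  change (fun q => δ q a)^[k + 1] c = c
  rw [Function.iterate_succ_apply]
  exact hk

theorem ell_pos (h : OneCl δ a c) : 0 < ell δ a c :=
  Function.minimalPeriod_pos_of_mem_periodicPts (per_c h)

omit [Fintype Q] in
private theorem mem_cyc {x : Q} : x ∈ cyc δ a c ↔
    ∃ i < ell δ a c, (fun q => δ q a)^[i] c = x := by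
  unfold cyc
  rw [mem_image]
  constructor
  · rintro ⟨i, hi, hx⟩
    rw [act_replicate] at hx
    exact ⟨i, mem_range.1 hi, hx⟩
  · rintro ⟨i, hi, hx⟩
    refine ⟨i, mem_range.2 hi, ?_⟩
    rw [act_replicate]
    exact hx

omit [Fintype Q] in
private theorem it_mem (hl : 0 < ell δ a c) (j : ℕ) : (fun q => δ q a)^[j] c ∈ cyc δ a c := by
  rw [mem_cyc]
  refine ⟨j % ell δ a c, Nat.mod_lt _ hl, ?_⟩
  exact Function.iterate_mod_minimalPeriod_eq

omit [Fintype Q] [DecidableEq Q] in
private theorem inj_c : Set.InjOn (fun i : ℕ => act δ c (List.replicate i a))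
    (range (ell δ a c) : Finset ℕ) := by
  intro i hi j hj hij
  rw [mem_coe, mem_range] at hi hj
  have h1 : (fun q => δ q a)^[i] c = (fun q => δ q a)^[j] c := by
    rw [← act_replicate, ← act_replicate]
    exact hij
  exact Function.iterate_injOn_Iio_minimalPeriod hi hj h1

theorem card_cyc (h : OneCl δ a c) : (cyc δ a c).card = ell δ a c := by
  have _ := h
  unfold cyc
  rw [card_image_of_injOn inj_c, card_range]

theorem ell_le (h : OneCl δ a c) : ell δ a c ≤ Fintype.card Q := by
  rw [← card_cyc h]
  exact card_le_univ _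

theorem base_mem (h : OneCl δ a c) : c ∈ cyc δ a c := it_mem (ell_pos h) 0

theorem cyc_step (h : OneCl δ a c) {x : Q} (hx : x ∈ cyc δ a c) : δ x a ∈ cyc δ a c := by
  obtain ⟨i, -, rfl⟩ := mem_cyc.1 hx
  have h1 := it_mem (ell_pos h) (i + 1)
  rw [Function.iterate_succ_apply'] at h1
  exact h1

theorem cyc_rep (h : OneCl δ a c) {x : Q} (hx : x ∈ cyc δ a c) (k : ℕ) :
    act δ x (List.replicate k a) ∈ cyc δ a c := by
  induction k with
  | zero => exact hx
  | succ k ih =>
    rw [act_replicate_succ]
    exact cyc_step h ih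

theorem cyc_period (h : OneCl δ a c) {x : Q} (hx : x ∈ cyc δ a c) :
    act δ x (List.replicate (ell δ a c) a) = x := by
  have _ := h
  obtain ⟨i, -, rfl⟩ := mem_cyc.1 hx
  rw [act_replicate, ← Function.iterate_add_apply, Nat.add_comm, Function.iterate_add_apply]
  congr 1
  exact Function.iterate_minimalPeriod

theorem step_inj (h : OneCl δ a c) {x y : Q} (hx : x ∈ cyc δ a c) (hy : y ∈ cyc δ a c)
    (e : δ x a = δ y a) : x = y := by
  have hl := ell_pos h
  obtain ⟨l, hl'⟩ : ∃ l, ell δ a c = l + 1 := ⟨ell δ a c - 1, by omega⟩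
  rw [← cyc_period h hx, ← cyc_period h hy, hl', List.replicate_succ, act_cons, act_cons, e]

theorem rep_inj (h : OneCl δ a c) {x y : Q} (hx : x ∈ cyc δ a c) (hy : y ∈ cyc δ a c) (k : ℕ)
    (e : act δ x (List.replicate k a) = act δ y (List.replicate k a)) : x = y := by
  induction k with
  | zero => exact e
  | succ k ih =>
    rw [act_replicate_succ, act_replicate_succ] at e
    exact ih (step_inj h (cyc_rep h hx k) (cyc_rep h hy k) e)

theorem cyc_reach (h : OneCl δ a c) {x y : Q} (hx : x ∈ cyc δ a c) (hy : y ∈ cyc δ a c) :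
    ∃ k < ell δ a c, act δ x (List.replicate k a) = y := by
  have hl := ell_pos h
  obtain ⟨i, hi, rfl⟩ := mem_cyc.1 hx
  obtain ⟨j, hj, rfl⟩ := mem_cyc.1 hy
  refine ⟨(j + (ell δ a c - i)) % ell δ a c, Nat.mod_lt _ hl, ?_⟩
  rw [act_replicate, ← Function.iterate_add_apply]
  have h1 : ((j + (ell δ a c - i)) % ell δ a c + i) % ell δ a c = j := by
    rw [Nat.mod_add_mod]
    have h2 : j + (ell δ a c - i) + i = j + ell δ a c := by omega
    rw [h2, Nat.add_mod_right, Nat.mod_eq_of_lt hj]
  have h3 : (fun q => δ q a)^[((j + (ell δ a c - i)) % ell δ a c + i) % ell δ a c] c =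
      (fun q => δ q a)^[(j + (ell δ a c - i)) % ell δ a c + i] c :=
    Function.iterate_mod_minimalPeriod_eq
  rw [← h3, h1]

theorem to_cyc (h : OneCl δ a c) (q : Q) {k : ℕ} (hk : Fintype.card Q ≤ ell δ a c + k) :
    act δ q (List.replicate k a) ∈ cyc δ a c := by
  by_contra hcon
  -- none of the first states is on the cycle
  have hnot : ∀ i ≤ k, act δ q (List.replicate i a) ∉ cyc δ a c := by
    intro i hi hmem
    apply hcon
    obtain ⟨d, rfl⟩ : ∃ d, k = i + d := ⟨k - i, by omega⟩
    rw [List.replicate_add, act_append]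
    exact cyc_rep h hmem d
  have key : ∀ i j, i < j → j ≤ k →
      act δ q (List.replicate i a) ≠ act δ q (List.replicate j a) := by
    intro i j hij hjk heq
    apply hnot i (by omega)
    obtain ⟨d, hd⟩ : ∃ d, j = i + d := ⟨j - i, by omega⟩
    obtain ⟨x, hx⟩ : ∃ x, x = act δ q (List.replicate i a) := ⟨_, rfl⟩
    rw [hd, List.replicate_add, act_append, ← hx] at heq
    rw [← hx]
    have hm : ∀ m : ℕ, act δ x (List.replicate (d * m) a) = x := by
      intro m
      induction m with
      | zero => rfl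
      | succ m ih =>
        rw [Nat.mul_succ, List.replicate_add, act_append, ih]
        exact heq.symm
    obtain ⟨r, hr⟩ := h x
    have hd1 : 1 ≤ d := by omega
    have hdr : r ≤ d * r := Nat.le_mul_of_pos_left _ hd1
    obtain ⟨u, hu⟩ : ∃ u, d * r = r + u := ⟨d * r - r, by omega⟩
    have h1 := hm r
    rw [hu, List.replicate_add, act_append, hr] at h1
    rw [← h1]
    exact cyc_rep h (base_mem h) u
  have hinj : Set.InjOn (fun i : ℕ => act δ q (List.replicate i a))
      (range (k + 1) : Finset ℕ) := by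
    intro i hi j hj hij
    rw [mem_coe, mem_range] at hi hj
    by_contra hne
    rcases lt_or_gt_of_ne hne with h1 | h1
    · exact key i j h1 (by omega) hij
    · exact key j i h1 (by omega) hij.symm
  have hdisj : Disjoint ((range (k + 1)).image fun i : ℕ => act δ q (List.replicate i a))
      (cyc δ a c) := by
    rw [disjoint_left]
    intro x hx
    rw [mem_image] at hx
    obtain ⟨i, hi, rfl⟩ := hx
    rw [mem_range] at hi
    exact hnot i (by omega)
  have hcard := card_le_univ (((range (k + 1)).image fun i : ℕ =>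
    act δ q (List.replicate i a)) ∪ cyc δ a c)
  rw [card_union_of_disjoint hdisj, card_image_of_injOn hinj, card_range, card_cyc h] at hcard
  omega

theorem rep_period (h : OneCl δ a c) (q : Q) {k : ℕ} (hk : Fintype.card Q ≤ ell δ a c + k) :
    act δ q (List.replicate (k + ell δ a c) a) = act δ q (List.replicate k a) := by
  rw [List.replicate_add, act_append]
  exact cyc_period h (to_cyc h q hk)

theorem sg_step (h : OneCl δ a c) (f : Q → ℚ) : sg δ a c (pw δ [a] f) = sg δ a c f := by
  rw [sg_apply, sg_apply]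
  refine Finset.sum_bij (fun x _ => δ x a) (fun x hx => cyc_step h hx)
    (fun x hx y hy e => step_inj h hx hy e) ?_ (fun x _ => rfl)
  intro y hy
  obtain ⟨l, hl'⟩ : ∃ l, ell δ a c = l + 1 := ⟨ell δ a c - 1, by have := ell_pos h; omega⟩
  refine ⟨act δ y (List.replicate l a), cyc_rep h hy l, ?_⟩
  show δ (act δ y (List.replicate l a)) a = y
  rw [← act_replicate_succ δ y a l, ← hl']
  exact cyc_period h hy

theorem sg_rep (h : OneCl δ a c) (f : Q → ℚ) (k : ℕ) :
    sg δ a c (pw δ (List.replicate k a) f) = sg δ a c f := by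
  induction k with
  | zero => rfl
  | succ k ih => rw [List.replicate_succ, pw_cons, sg_step h, ih]

/-- the sum over the cycle can be computed along the cycle, from any starting point -/
theorem sum_along (h : OneCl δ a c) {x : Q} (hx : x ∈ cyc δ a c) (f : Q → ℚ) :
    ∑ i ∈ range (ell δ a c), f (act δ x (List.replicate i a)) = sg δ a c f := by
  have hc : ∀ g : Q → ℚ, ∑ i ∈ range (ell δ a c), g (act δ c (List.replicate i a)) =
      sg δ a c g := by
    intro g
    rw [sg_apply]
    unfold cyc
    rw [Finset.sum_image inj_c]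
  obtain ⟨m, -, rfl⟩ := mem_cyc.1 hx
  rw [← act_replicate, ← sg_rep h f m, ← hc]
  refine Finset.sum_congr rfl (fun i _ => ?_)
  rw [pw_apply, ← act_append, ← act_append, ← List.replicate_add, ← List.replicate_add,
    Nat.add_comm]

end Pool.Agent.Work.MP_446a37_lc.OC
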