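import Pool.Agent.Work.MP_446a37_lc.OC.Bas

/-!
MODULE Fst (M). The first step: some word of length at most `2 (n - l) + 1` is not injective on the
cycle (`n = card Q`, `l = ell ≥ 2`).

PROOF. `σ = sg δ a c`. `E = {f | pw (a^l) f = f and σ f = 0}`, a submodule of `Q → ℚ`.
(1) `finrank E ≥ l - 1`: the map sending `g : Q → ℚ` with `∑_{cyc} g = 0` to `pw (a^(n l)) g`, or: let
`E1 = {f | pw (a^l) f = f}`; the restriction map `E1 → (cyc → ℚ)` is surjective: for `g` on the cycle
extended by `0` to `Q`, `f = pw (a^(N l)) g` with `N l ≥ n - l` (for example `N = n`) is in `E1` by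
`rep_period` and agrees with `g` on the cycle (`cyc_period` iterated). So `finrank E1 ≥ l` and
`E = E1 ⊓ ker σ` has `finrank ≥ l - 1`.
(2) Some word `u` and `f ∈ E` have `σ (pw u f) ≠ 0`: take a reset word `u` with value `q0` and
`f ∈ E` not vanishing at `q0` (`f = pw (a^(N l)) (1_y - 1_z)` with `y = act δ q0 (a^(N l)) ∈ cyc` and
`z ≠ y` another state of the cycle, `l ≥ 2`): `σ (pw u f) = l f q0 ≠ 0`.
(3) Choose `u` of minimal length `m` among the words for which there is `f ∈ E` with
`σ (pw u f) ≠ 0`; fix `f`. Let `g i = pw (u.drop (m-i)) f` for `1 ≤ i ≤ m - 1`. By minimality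
`g i ∈ ker σ`, and `E ≤ ker σ`. Claim `g i ∉ E + span {g 1, ..., g (i-1)}`: apply
`σ ∘ pw (u.take (m-i))`, which is `≠ 0` at `g i` but `0` on `E` (length `m - i < m`) and at `g j`,
`j < i` (the word `u.take (m-i) ++ u.drop (m-j)` has length `m - i + j < m`). So
`finrank (E + span {g 1, ..., g (m-1)}) ≥ (l - 1) + (m - 1)` (add one vector at a time,
`Submodule.finrank_lt_finrank_of_lt`), and it is at most `finrank (ker σ) = n - 1`. Hence
`m ≤ n - l + 1` (`m ≥ 1` because `σ = 0` on `E`).
(4) The word `u ++ a^(n-l)` has length `≤ 2 (n-l) + 1`. If it were injective on the cycle it would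
permute it (`to_cyc`), and so would `v = u ++ a^(n-l) ++ a^j` for every `j` (`rep_inj`); take `j` with
`n - l + j = n l` (a multiple of `l`; `n l ≥ n - l`). Then `pw v f = pw u f` since
`pw (a^(n l)) f = f`, and `σ (pw v f) = ∑_{x ∈ cyc} f (act δ x v) = ∑_{cyc} f = 0`
(`Finset.sum_bij`), a contradiction.
-/

namespace Pool.Agent.Work.MP_446a37_lc.OC

open Finset

variable {Q A : Type} [Fintype Q] [DecidableEq Q] {δ : Q → A → Q} {a : A} {c : Q}

private theorem rep_mul (h : OneCl δ a c) {x : Q} (hx : x ∈ cyc δ a c) (k : ℕ) :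
    act δ x (List.replicate (k * ell δ a c) a) = x := by
  induction k with
  | zero => rw [Nat.zero_mul]; rfl
  | succ k ih => rw [Nat.succ_mul, List.replicate_add, act_append, ih, cyc_period h hx]

private theorem pw_mul {f : Q → ℚ} (hf : pw δ (List.replicate (ell δ a c) a) f = f) (k : ℕ) :
    pw δ (List.replicate (k * ell δ a c) a) f = f := by
  induction k with
  | zero => rw [Nat.zero_mul]; rfl
  | succ k ih => rw [Nat.succ_mul, List.replicate_add, pw_append, hf, ih]

theorem first_step (h : OneCl δ a c) (hsync : ∃ w, IsReset δ w) (hl : 2 ≤ ell δ a c) :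
    ∃ u : List A, u.length ≤ 2 * (Fintype.card Q - ell δ a c) + 1 ∧
      ∃ x ∈ cyc δ a c, ∃ y ∈ cyc δ a c, x ≠ y ∧ act δ x u = act δ y u := by
  classical
  have hln : ell δ a c ≤ Fintype.card Q := ell_le h
  obtain ⟨K, hK⟩ : ∃ K, K = Fintype.card Q * ell δ a c := ⟨_, rfl⟩
  have hKn : Fintype.card Q ≤ K := by
    rw [hK]
    exact Nat.le_mul_of_pos_right _ (by omega)
  have hKl : Fintype.card Q ≤ ell δ a c + K := by omega
  have hcycK : ∀ x ∈ cyc δ a c, act δ x (List.replicate K a) = x := by
    intro x hx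
    rw [hK]
    exact rep_mul h hx _
  -- the invariant functions
  set E1 : Submodule ℚ (Q → ℚ) :=
    LinearMap.ker (pw δ (List.replicate (ell δ a c) a) - LinearMap.id) with hE1
  have memE1 : ∀ f : Q → ℚ, f ∈ E1 ↔ pw δ (List.replicate (ell δ a c) a) f = f := by
    intro f
    rw [hE1, LinearMap.mem_ker, LinearMap.sub_apply, LinearMap.id_apply, sub_eq_zero]
  set σ := sg δ a c with hσ
  set E : Submodule ℚ (Q → ℚ) := E1 ⊓ LinearMap.ker σ with hE
  -- lift from the cycle
  set r : Q → cyc δ a c := fun q => ⟨act δ q (List.replicate K a), to_cyc h q hKl⟩ with hr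
  have hrsurj : Function.Surjective r := by
    rintro ⟨x, hx⟩
    exact ⟨x, Subtype.ext (hcycK x hx)⟩
  set L : (cyc δ a c → ℚ) →ₗ[ℚ] (Q → ℚ) := LinearMap.funLeft ℚ ℚ r with hL
  have hLinj : Function.Injective L := LinearMap.funLeft_injective_of_surjective ℚ ℚ r hrsurj
  have hLE1 : ∀ g, L g ∈ E1 := by
    intro g
    rw [memE1]
    ext q
    show g (r (act δ q (List.replicate (ell δ a c) a))) = g (r q)
    congr 1
    refine Subtype.ext ?_
    show act δ (act δ q (List.replicate (ell δ a c) a)) (List.replicate K a) =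
      act δ q (List.replicate K a)
    rw [← act_append, ← List.replicate_add, Nat.add_comm]
    exact rep_period h q hKl
  have hLx : ∀ (g : cyc δ a c → ℚ) (x : Q) (hx : x ∈ cyc δ a c), L g x = g ⟨x, hx⟩ := by
    intro g x hx
    show g (r x) = g ⟨x, hx⟩
    congr 1
    exact Subtype.ext (hcycK x hx)
  have hfE1 : ell δ a c ≤ Module.finrank ℚ E1 := by
    have h1 : LinearMap.range L ≤ E1 := by
      rintro _ ⟨g, rfl⟩
      exact hLE1 g
    have h2 := Submodule.finrank_mono h1
    rw [LinearMap.finrank_range_of_inj hLinj, Module.finrank_fintype_fun_eq_card,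
      Fintype.card_coe, card_cyc h] at h2
    exact h2
  -- the sum over the cycle of a lift
  have hsL : ∀ g : cyc δ a c → ℚ, σ (L g) = ∑ x : cyc δ a c, g x := by
    intro g
    rw [hσ, sg_apply, ← Finset.sum_coe_sort]
    refine Finset.sum_congr rfl (fun x _ => ?_)
    exact hLx g x.1 x.2
  -- existence
  obtain ⟨w, hw⟩ := hsync
  obtain ⟨q0, hq0⟩ : ∃ q0, q0 = act δ c w := ⟨_, rfl⟩
  have hwq : ∀ p, act δ p w = q0 := fun p => by rw [hq0]; exact hw p c
  have hone : (1 : ℕ) < (cyc δ a c).card := by rw [card_cyc h]; omega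
  obtain ⟨z, hz, hzy⟩ := Finset.exists_mem_ne hone (r q0).1
  have hex : ∃ m, ∃ u : List A, u.length = m ∧ ∃ f ∈ E, σ (pw δ u f) ≠ 0 := by
    refine ⟨_, w, rfl, L (Pi.single (r q0) 1 - Pi.single ⟨z, hz⟩ 1), ?_, ?_⟩
    · refine Submodule.mem_inf.2 ⟨hLE1 _, ?_⟩
      rw [LinearMap.mem_ker, hsL]
      simp
    · have h1 : L (Pi.single (r q0) 1 - Pi.single ⟨z, hz⟩ 1) q0 = 1 := by
        show (Pi.single (r q0) 1 - Pi.single ⟨z, hz⟩ 1 : cyc δ a c → ℚ) (r q0) = 1
        rw [Pi.sub_apply, Pi.single_eq_same, Pi.single_eq_of_ne, sub_zero]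
        intro e
        apply hzy
        rw [e]
      have h2 : σ (pw δ w (L (Pi.single (r q0) 1 - Pi.single ⟨z, hz⟩ 1))) =
          ∑ x ∈ cyc δ a c, (1 : ℚ) := by
        rw [hσ, sg_apply]
        refine Finset.sum_congr rfl (fun x _ => ?_)
        rw [pw_apply, hwq, h1]
      rw [h2, Finset.sum_const, card_cyc h, nsmul_eq_mul, mul_one]
      exact_mod_cast (by omega : ell δ a c ≠ 0)
  obtain ⟨u, hlen, f, hfE, hne⟩ := Nat.find_spec hex
  have hmin : ∀ (u' : List A), u'.length < Nat.find hex → ∀ f' ∈ E, σ (pw δ u' f') = 0 := by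
    intro u' hl' f' hf'
    by_contra hc
    exact Nat.find_min hex hl' ⟨u', rfl, f', hf', hc⟩
  set m := Nat.find hex with hm
  have hEker : E ≤ LinearMap.ker σ := inf_le_right
  have hfE1' : pw δ (List.replicate (ell δ a c) a) f = f := (memE1 f).1 (Submodule.mem_inf.1 hfE).1
  have hσf : σ f = 0 := LinearMap.mem_ker.1 (Submodule.mem_inf.1 hfE).2
  have hm1 : 1 ≤ m := by
    by_contra hc
    have hu : u = [] := List.length_eq_zero_iff.1 (by omega)
    apply hne
    rw [hu, pw_nil]
    exact hσf
  -- dimensions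
  have hkerdim : Module.finrank ℚ (LinearMap.ker σ) + 1 = Fintype.card Q := by
    have h7 := LinearMap.finrank_range_add_finrank_ker σ
    have h8 : LinearMap.range σ = ⊤ := by
      rw [LinearMap.range_eq_top]
      exact LinearMap.surjective (fun h0 => hne (by rw [h0, LinearMap.zero_apply]))
    rw [h8, finrank_top, Module.finrank_self, Module.finrank_fintype_fun_eq_card] at h7
    omega
  have hEdim : ell δ a c ≤ Module.finrank ℚ E + 1 := by
    have h1 := Submodule.finrank_sup_add_finrank_inf_eq E1 (LinearMap.ker σ)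
    have h2 : Module.finrank ℚ (E1 ⊔ LinearMap.ker σ : Submodule ℚ (Q → ℚ)) ≤
        Fintype.card Q := by
      have h3 := Submodule.finrank_le (E1 ⊔ LinearMap.ker σ : Submodule ℚ (Q → ℚ))
      rwa [Module.finrank_fintype_fun_eq_card] at h3
    have h4 : Module.finrank ℚ E = Module.finrank ℚ (E1 ⊓ LinearMap.ker σ : Submodule ℚ (Q → ℚ)) :=
      rfl
    omega
  set g : ℕ → (Q → ℚ) := fun i => pw δ (u.drop (m - i)) f with hg
  set G : ℕ → Submodule ℚ (Q → ℚ) := fun i => E ⊔ Submodule.span ℚ (g '' {j | j < i}) with hG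
  have hnot : ∀ i, 1 ≤ i → i ≤ m → g i ∉ G i := by
    intro i hi1 hi hgi
    have hle : G i ≤ LinearMap.ker (σ ∘ₗ pw δ (u.take (m - i))) := by
      refine sup_le ?_ (Submodule.span_le.2 ?_)
      · intro f' hf'
        show σ (pw δ (u.take (m - i)) f') = 0
        refine hmin _ ?_ f' hf'
        rw [List.length_take, hlen]
        omega
      · rintro _ ⟨j, hj, rfl⟩
        have hj' : j < i := hj
        show σ (pw δ (u.take (m - i)) (pw δ (u.drop (m - j)) f)) = 0
        rw [← pw_append]
        refine hmin _ ?_ f hfE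
        rw [List.length_append, List.length_take, List.length_drop, hlen]
        omega
    have h3 := hle hgi
    have h4 : σ (pw δ (u.take (m - i)) (pw δ (u.drop (m - i)) f)) = 0 := h3
    rw [← pw_append, List.take_append_drop] at h4
    exact hne h4
  have hfin : ∀ i, i + 1 ≤ m → Module.finrank ℚ E + i ≤ Module.finrank ℚ (G (i + 1)) := by
    intro i
    induction i with
    | zero => intro _; exact Submodule.finrank_mono le_sup_left
    | succ i ih =>
      intro hi
      have h3 := ih (by omega)
      have hlt : G (i + 1) < G (i + 1 + 1) := by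
        refine lt_of_le_of_ne
          (sup_le_sup_left (Submodule.span_mono (Set.image_mono fun j hj => ?_)) _) ?_
        · exact Nat.lt_succ_of_lt hj
        · intro heq
          refine hnot (i + 1) (by omega) (by omega) ?_
          rw [heq]
          exact Submodule.mem_sup_right (Submodule.subset_span ⟨i + 1, Nat.lt_succ_self _, rfl⟩)
      have h4 := Submodule.finrank_lt_finrank_of_lt hlt
      omega
  have hker : G m ≤ LinearMap.ker σ := by
    refine sup_le hEker (Submodule.span_le.2 ?_)
    rintro _ ⟨j, hj, rfl⟩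
    have hj' : j < m := hj
    show σ (pw δ (u.drop (m - j)) f) = 0
    refine hmin _ ?_ f hfE
    rw [List.length_drop, hlen]
    omega
  have hmle : m ≤ Fintype.card Q - ell δ a c + 1 := by
    have h5 := hfin (m - 1) (by omega)
    have h6 := Submodule.finrank_mono hker
    have e : m - 1 + 1 = m := by omega
    rw [e] at h5
    omega
  -- the word
  refine ⟨u ++ List.replicate (Fintype.card Q - ell δ a c) a, ?_, ?_⟩
  · rw [List.length_append, List.length_replicate, hlen]
    omega
  by_contra hcon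
  push Not at hcon
  obtain ⟨j, hj⟩ : ∃ j, K = Fintype.card Q - ell δ a c + j :=
    ⟨K - (Fintype.card Q - ell δ a c), by omega⟩
  have hfK : pw δ (List.replicate K a) f = f := by
    rw [hK]
    exact pw_mul hfE1' _
  have hto : ∀ x, act δ x (u ++ List.replicate K a) ∈ cyc δ a c := by
    intro x
    rw [act_append]
    exact to_cyc h _ hKl
  have hinj : ∀ x ∈ cyc δ a c, ∀ y ∈ cyc δ a c,
      act δ x (u ++ List.replicate K a) = act δ y (u ++ List.replicate K a) → x = y := by
    intro x hx y hy e
    by_contra hxy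
    have h1 := hcon x hx y hy hxy
    apply h1
    rw [hj, List.replicate_add, ← List.append_assoc, act_append, act_append δ y] at e
    refine rep_inj h ?_ ?_ j e
    · rw [act_append]
      exact to_cyc h _ (by omega)
    · rw [act_append]
      exact to_cyc h _ (by omega)
  have himg : (cyc δ a c).image (fun x => act δ x (u ++ List.replicate K a)) = cyc δ a c := by
    refine Finset.eq_of_subset_of_card_le ?_ ?_
    · intro y hy
      obtain ⟨x, -, rfl⟩ := Finset.mem_image.1 hy
      exact hto x
    · rw [Finset.card_image_of_injOn]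
      intro x hx y hy e
      exact hinj x hx y hy e
  apply hne
  have h1 : σ (pw δ u f) = ∑ x ∈ cyc δ a c, f (act δ x (u ++ List.replicate K a)) := by
    rw [hσ, sg_apply]
    refine Finset.sum_congr rfl (fun x _ => ?_)
    rw [pw_apply, act_append]
    conv_lhs => rw [← hfK]
    rfl
  rw [h1]
  have h2 : ∑ x ∈ cyc δ a c, f (act δ x (u ++ List.replicate K a)) = ∑ y ∈ cyc δ a c, f y := by
    conv_rhs => rw [← himg]
    rw [Finset.sum_image]
    intro x hx y hy e
    exact hinj x hx y hy e
  rw [h2, ← sg_apply]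
  exact hσf

end Pool.Agent.Work.MP_446a37_lc.OC
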