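import Pool.Agent.Work.MP_446a37_lc.OC.Ext
import Pool.Agent.Work.MP_446a37_lc.OC.Fst

/-!
MODULE Cer (S-M). The Cerny bound for one-cluster automata. `n = card Q`, `l = ell`.

`bound_of_collision`: let `q = act δ x u0 = act δ y u0`. By induction on `k`, for `2 ≤ k ≤ l` there is
a word `w` of length `≤ u0.length + (k-2) (2n-l)` with `(pre δ {q} w ∩ cyc).card ≥ k`: start with
`w = u0` (the preimage contains `x, y`); if the number is `≥ k+1` keep `w`; if it is `k < l` apply
`extension_oc` to `S = pre δ {q} w` and use `pre_append` (`pre δ (pre δ {q} w) u = pre δ {q} (u ++ w)`).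
For `k = l` the preimage contains the whole cycle (`Finset.eq_of_subset_of_card_le`), and
`replicate (n-l) a ++ w` is a reset word (`to_cyc`).

`cerny_oc`: if `l = 1` the cycle is one state and `replicate (n-1) a` is a reset word of length
`n - 1 ≤ (n-1)^2`. If `l ≥ 2`: `first_step` and `bound_of_collision`; with `d = n - l`, `l = n - d`:
`d + (2d+1) + (l-2)(n+d) = (n-1)^2 - d^2 + d ≤ (n-1)^2` (write `n = l + d`, `l = j + 2`; `nlinarith` or
`ring_nf`; for naturals `d ≤ d^2`).
`strict_oc`: the same with `d ≥ 2`: then `d < d^2`; for `l = 1`, `n ≥ 3`: `n - 1 < (n-1)^2`.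
-/

namespace Pool.Agent.Work.MP_446a37_lc.OC

open Finset

variable {Q A : Type} [Fintype Q] [DecidableEq Q] {δ : Q → A → Q} {a : A} {c : Q}

theorem bound_of_collision (h : OneCl δ a c) (hsync : ∃ w, IsReset δ w) (hl : 2 ≤ ell δ a c)
    (u0 : List A) {x y : Q} (hx : x ∈ cyc δ a c) (hy : y ∈ cyc δ a c) (hxy : x ≠ y)
    (hu : act δ x u0 = act δ y u0) :
    ∃ w, IsReset δ w ∧ w.length ≤ (Fintype.card Q - ell δ a c) + u0.length +
      (ell δ a c - 2) * (2 * Fintype.card Q - ell δ a c) := by
  set q := act δ x u0 with hq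
  have key : ∀ k : ℕ, k + 2 ≤ ell δ a c → ∃ w : List A,
      w.length ≤ u0.length + k * (2 * Fintype.card Q - ell δ a c) ∧
      k + 2 ≤ (pre δ {q} w ∩ cyc δ a c).card := by
    intro k
    induction k with
    | zero =>
      intro _
      refine ⟨u0, by simp, ?_⟩
      have h1 : ({x, y} : Finset Q) ⊆ pre δ {q} u0 ∩ cyc δ a c := by
        intro z hz
        rw [Finset.mem_insert, Finset.mem_singleton] at hz
        rw [Finset.mem_inter]
        rcases hz with rfl | rfl
        · refine ⟨?_, hx⟩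
          simp [pre, hq]
        · refine ⟨?_, hy⟩
          simp [pre, ← hu]
      have h2 := Finset.card_le_card h1
      rw [Finset.card_pair hxy] at h2
      omega
    | succ k ih =>
      intro hk
      obtain ⟨w, hw1, hw2⟩ := ih (by omega)
      have e0 : (k + 1) * (2 * Fintype.card Q - ell δ a c) =
          k * (2 * Fintype.card Q - ell δ a c) + (2 * Fintype.card Q - ell δ a c) :=
        Nat.succ_mul k _
      rcases Nat.lt_or_ge (k + 2) (pre δ {q} w ∩ cyc δ a c).card with h3 | h3
      · refine ⟨w, hw1.trans ?_, by omega⟩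
        rw [e0]
        omega
      · have h4 : (pre δ {q} w ∩ cyc δ a c).card = k + 2 := le_antisymm h3 hw2
        obtain ⟨u, hu1, hu2⟩ := extension_oc h hsync (pre δ {q} w) (by omega) (by omega)
        refine ⟨u ++ w, ?_, ?_⟩
        · rw [List.length_append, e0]
          omega
        · rw [pre_append]
          omega
  obtain ⟨w, hw1, hw2⟩ := key (ell δ a c - 2) (by omega)
  have h5 : pre δ {q} w ∩ cyc δ a c = cyc δ a c := by
    apply Finset.eq_of_subset_of_card_le Finset.inter_subset_right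
    rw [card_cyc h]
    omega
  have h6 : ∀ z ∈ cyc δ a c, act δ z w = q := by
    intro z hz
    rw [← h5, Finset.mem_inter] at hz
    have := hz.1
    simpa [pre] using this
  refine ⟨List.replicate (Fintype.card Q - ell δ a c) a ++ w, ?_, ?_⟩
  · intro p p'
    have h7 : Fintype.card Q ≤ ell δ a c + (Fintype.card Q - ell δ a c) := by omega
    rw [act_append, act_append, h6 _ (to_cyc h p h7), h6 _ (to_cyc h p' h7)]
  · rw [List.length_append, List.length_replicate]
    omega

private theorem one_case (h : OneCl δ a c) (h1 : ell δ a c = 1) :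
    ∃ w, IsReset δ w ∧ w.length = Fintype.card Q - 1 := by
  refine ⟨List.replicate (Fintype.card Q - 1) a, ?_, by simp⟩
  have h2 : (cyc δ a c).card ≤ 1 := by
    rw [card_cyc h, h1]
  have h3 : Fintype.card Q ≤ ell δ a c + (Fintype.card Q - 1) := by omega
  intro p q
  exact Finset.card_le_one.1 h2 _ (to_cyc h p h3) _ (to_cyc h q h3)

private theorem arith (n l : ℕ) (hl : 2 ≤ l) (hn : l ≤ n) :
    (n - l) + (2 * (n - l) + 1) + (l - 2) * (2 * n - l) + (n - l) ^ 2 = (n - 1) ^ 2 + (n - l) := by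
  obtain ⟨j, rfl⟩ := Nat.exists_eq_add_of_le hl
  obtain ⟨d, rfl⟩ := Nat.exists_eq_add_of_le hn
  have e1 : 2 + j + d - (2 + j) = d := by omega
  have e2 : 2 + j - 2 = j := by omega
  have e3 : 2 * (2 + j + d) - (2 + j) = 2 + j + 2 * d := by omega
  have e4 : 2 + j + d - 1 = 1 + j + d := by omega
  rw [e1, e2, e3, e4]
  ring

theorem cerny_oc (h : OneCl δ a c) (hsync : ∃ w, IsReset δ w) :
    ∃ w, IsReset δ w ∧ w.length ≤ (Fintype.card Q - 1) ^ 2 := by
  have h0 := ell_pos h
  have hle := ell_le h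
  rcases Nat.lt_or_ge (ell δ a c) 2 with h1 | h1
  · obtain ⟨w, hw1, hw2⟩ := one_case h (by omega)
    refine ⟨w, hw1, ?_⟩
    rw [hw2]
    exact Nat.le_self_pow (by norm_num) _
  · obtain ⟨u, hu, x, hx, y, hy, hxy, hxu⟩ := first_step h hsync h1
    obtain ⟨w, hw1, hw2⟩ := bound_of_collision h hsync h1 u hx hy hxy hxu
    refine ⟨w, hw1, hw2.trans ?_⟩
    have h3 := arith _ _ h1 hle
    have h4 : Fintype.card Q - ell δ a c ≤ (Fintype.card Q - ell δ a c) ^ 2 :=
      Nat.le_self_pow (by norm_num) _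
    omega

theorem strict_oc (h : OneCl δ a c) (hsync : ∃ w, IsReset δ w)
    (hl : ell δ a c + 2 ≤ Fintype.card Q) :
    ∃ w, IsReset δ w ∧ w.length < (Fintype.card Q - 1) ^ 2 := by
  have h0 := ell_pos h
  have hle := ell_le h
  rcases Nat.lt_or_ge (ell δ a c) 2 with h1 | h1
  · obtain ⟨w, hw1, hw2⟩ := one_case h (by omega)
    refine ⟨w, hw1, ?_⟩
    rw [hw2]
    have h5 : 2 ≤ Fintype.card Q - 1 := by omega
    nlinarith
  · obtain ⟨u, hu, x, hx, y, hy, hxy, hxu⟩ := first_step h hsync h1
    obtain ⟨w, hw1, hw2⟩ := bound_of_collision h hsync h1 u hx hy hxy hxu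
    refine ⟨w, hw1, lt_of_le_of_lt hw2 ?_⟩
    have h3 := arith _ _ h1 hle
    have h5 : 2 ≤ Fintype.card Q - ell δ a c := by omega
    have h4 : Fintype.card Q - ell δ a c < (Fintype.card Q - ell δ a c) ^ 2 := by nlinarith
    omega

end Pool.Agent.Work.MP_446a37_lc.OC
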