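import Mathlib

/-!
MODULE ChP (M, Mathlib only). The characteristic polynomial along invariant subspaces
`W ≤ W'`: `charpoly (R on W') = charpoly (R on W) * P` with `P(R) W' ≤ W`.

PROOF. (1) For an invariant subspace `W` of a finite dimensional space `V`:
`R.charpoly = (R.restrict hW).charpoly * (W.mapQ W R hW).charpoly`. Copy the proof of
`LinearMap.det_eq_det_mul_det` (Mathlib/LinearAlgebra/Determinant.lean): with
`b = Module.Basis.sumQuot bW bQ` the matrix `LinearMap.toMatrix b b R` is
`Matrix.fromBlocks A B 0 D`; then use `LinearMap.charpoly_toMatrix` and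
`Matrix.charpoly_fromBlocks_zero₂₁`.
(2) For `W ≤ W'` apply (1) to the space `W'`, the operator `R' = R.restrict hW'` and the submodule
`W'' = W.comap W'.subtype`. The operator `R'.restrict _` on `W''` is conjugate to `R.restrict hW`
under `Submodule.comapSubtypeEquivOfLe h : W'' ≃ₗ W` (`LinearEquiv.charpoly_conj`). Take `P` the
characteristic polynomial of the induced map on `W' ⧸ W''`. By Cayley-Hamilton
(`LinearMap.aeval_self_charpoly`) `aeval (mapQ) P = 0`; and `mk (aeval R' P v) = aeval (mapQ) P (mk v)`
(induction on `P`, or `LinearMap.aeval...`: prove the commutation `mkQ ∘ R'^k = mapQ^k ∘ mkQ` and sum),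
so `aeval R' P v ∈ W''`, i.e. `aeval R P v ∈ W` (the coercion of `aeval R' P v` is `aeval R P v`, same
kind of induction).
-/

namespace Pool.Agent.Work.MP_446a37_lc.OC

open Polynomial

open Module.Basis in
private theorem charpoly_eq_mul {K V : Type*} [Field K] [AddCommGroup V] [Module K V]
    [FiniteDimensional K V] (W : Submodule K V) (e : V →ₗ[K] V) (he : W ≤ W.comap e) :
    e.charpoly = (e.restrict he).charpoly * (W.mapQ W e he).charpoly := by
  classical
  let m := Module.Free.ChooseBasisIndex K W
  let bW : Module.Basis m K W := Module.Free.chooseBasis K W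
  let n := Module.Free.ChooseBasisIndex K (V ⧸ W)
  let bQ : Module.Basis n K (V ⧸ W) := Module.Free.chooseBasis K (V ⧸ W)
  let b := sumQuot bW bQ
  let A : Matrix m m K := LinearMap.toMatrix bW bW (e.restrict he)
  let B : Matrix m n K := Matrix.of fun i l ↦
    ((sumQuot bW bQ).repr (e ((sumQuot bW bQ) (Sum.inr l)))) (Sum.inl i)
  let D : Matrix n n K := LinearMap.toMatrix bQ bQ (W.mapQ W e he)
  suffices LinearMap.toMatrix b b e = Matrix.fromBlocks A B 0 D by
    rw [← LinearMap.charpoly_toMatrix e b, this, ← LinearMap.charpoly_toMatrix _ bW,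
      ← LinearMap.charpoly_toMatrix _ bQ, Matrix.charpoly_fromBlocks_zero₂₁]
  ext u v
  cases u with
  | inl i =>
    cases v with
    | inl k =>
      simp only [b, sumQuot_inl, Matrix.fromBlocks_apply₁₁, A, LinearMap.toMatrix_apply]
      apply sumQuot_repr_inl_of_mem
    | inr l => simp [b, LinearMap.toMatrix_apply, Matrix.fromBlocks_apply₁₂, B]
  | inr j =>
    cases v with
    | inl k =>
      suffices W.mkQ (e (bW k)) = 0 by simp [LinearMap.toMatrix_apply, b, this]
      rw [← LinearMap.mem_ker, Submodule.ker_mkQ]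
      exact he (Submodule.coe_mem (bW k))
    | inr l =>
      simp only [LinearMap.toMatrix_apply, sumQuot_repr_inr,
        Matrix.fromBlocks_apply₂₂, b, D]
      rw [← sumQuot_inr bW bQ l, W.mapQ_apply]
      simp

private theorem pow_restrict_coe {K V : Type*} [Field K] [AddCommGroup V] [Module K V]
    (R : V →ₗ[K] V) (W : Submodule K V) (hW : ∀ v ∈ W, R v ∈ W) (k : ℕ) (v : W) :
    (((R.restrict hW) ^ k) v : V) = (R ^ k) (v : V) := by
  induction k generalizing v with
  | zero => simp
  | succ k ih =>
    rw [pow_succ, pow_succ, Module.End.mul_apply, Module.End.mul_apply, ih]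
    rfl

private theorem aeval_restrict_coe {K V : Type*} [Field K] [AddCommGroup V] [Module K V]
    (R : V →ₗ[K] V) (W : Submodule K V) (hW : ∀ v ∈ W, R v ∈ W) (P : K[X]) (v : W) :
    ((aeval (R.restrict hW) P v : W) : V) = aeval R P (v : V) := by
  induction P using Polynomial.induction_on' with
  | add p q hp hq => simp only [map_add, LinearMap.add_apply, Submodule.coe_add, hp, hq]
  | monomial k a =>
    simp only [aeval_monomial, Module.End.mul_apply, Module.algebraMap_end_apply,
      Submodule.coe_smul, pow_restrict_coe]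

private theorem pow_mapQ_mk {K V : Type*} [Field K] [AddCommGroup V] [Module K V]
    (W : Submodule K V) (R : V →ₗ[K] V) (he : W ≤ W.comap R) (k : ℕ) (v : V) :
    ((W.mapQ W R he) ^ k) (W.mkQ v) = W.mkQ ((R ^ k) v) := by
  induction k generalizing v with
  | zero => simp
  | succ k ih =>
    rw [pow_succ, pow_succ, Module.End.mul_apply, Module.End.mul_apply, ← ih]
    rfl

private theorem aeval_mapQ_mk {K V : Type*} [Field K] [AddCommGroup V] [Module K V]
    (W : Submodule K V) (R : V →ₗ[K] V) (he : W ≤ W.comap R) (P : K[X]) (v : V) :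
    aeval (W.mapQ W R he) P (W.mkQ v) = W.mkQ (aeval R P v) := by
  induction P using Polynomial.induction_on' with
  | add p q hp hq => simp only [map_add, LinearMap.add_apply, hp, hq]
  | monomial k a =>
    simp only [aeval_monomial, Module.End.mul_apply, Module.algebraMap_end_apply,
      map_smul, pow_mapQ_mk]

private theorem top_aux {K V : Type*} [Field K] [AddCommGroup V] [Module K V]
    [FiniteDimensional K V] (R : V →ₗ[K] V) (W : Submodule K V) (hW : ∀ v ∈ W, R v ∈ W) :
    ∃ P : K[X], (∀ v : V, aeval R P v ∈ W) ∧ R.charpoly = (R.restrict hW).charpoly * P := by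
  refine ⟨(W.mapQ W R hW).charpoly, fun v => ?_, charpoly_eq_mul W R hW⟩
  have h := aeval_mapQ_mk W R hW (W.mapQ W R hW).charpoly v
  rw [LinearMap.aeval_self_charpoly, LinearMap.zero_apply] at h
  exact (Submodule.Quotient.mk_eq_zero W).1 h.symm

theorem charpoly_split {K V : Type*} [Field K] [AddCommGroup V] [Module K V]
    [FiniteDimensional K V] (R : V →ₗ[K] V) (W W' : Submodule K V) (hW : ∀ v ∈ W, R v ∈ W)
    (hW' : ∀ v ∈ W', R v ∈ W') (h : W ≤ W') :
    ∃ P : K[X], (∀ v ∈ W', aeval R P v ∈ W) ∧
      (R.restrict hW').charpoly = (R.restrict hW).charpoly * P := by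
  have hc : ∀ v ∈ W.comap W'.subtype, (R.restrict hW') v ∈ W.comap W'.subtype := by
    intro v hv
    exact hW _ hv
  obtain ⟨P, hP, hcp⟩ := top_aux (R.restrict hW') (W.comap W'.subtype) hc
  refine ⟨P, fun v hv => ?_, ?_⟩
  · have h1 := hP ⟨v, hv⟩
    rw [Submodule.mem_comap, Submodule.subtype_apply, aeval_restrict_coe] at h1
    exact h1
  · rw [hcp]
    congr 1
    rw [← LinearEquiv.charpoly_conj (Submodule.comapSubtypeEquivOfLe h)
      ((R.restrict hW').restrict hc)]
    congr 1

theorem charpoly_top {K V : Type*} [Field K] [AddCommGroup V] [Module K V]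
    [FiniteDimensional K V] (R : V →ₗ[K] V) (W : Submodule K V) (hW : ∀ v ∈ W, R v ∈ W) :
    ∃ P : K[X], (∀ v : V, aeval R P v ∈ W) ∧ R.charpoly = (R.restrict hW).charpoly * P :=
  top_aux R W hW

theorem charpoly_kills {K V : Type*} [Field K] [AddCommGroup V] [Module K V]
    [FiniteDimensional K V] (R : V →ₗ[K] V) (W : Submodule K V) (hW : ∀ v ∈ W, R v ∈ W) :
    ∀ v ∈ W, aeval R (R.restrict hW).charpoly v = 0 := by
  intro v hv
  have h := aeval_restrict_coe R W hW (R.restrict hW).charpoly ⟨v, hv⟩
  rw [LinearMap.aeval_self_charpoly] at h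
  rw [← h]
  rfl

end Pool.Agent.Work.MP_446a37_lc.OC
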