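import Pool.Agent.Work.MP_446a37_lc.OC.Bas
import Pool.Agent.Work.MP_446a37_lc.OC.ChP

/-!
MODULE Cp (M). The characteristic polynomial of the composition with a one-cluster map:
`X^n - X^(n-l)`, `n` the number of states, `l` the length of the cycle.

PROOF. `R = pw δ [a]`, `(R^k f) q = f (act δ q (replicate k a))`. `χ = R.charpoly` is monic of degree
`n` (`LinearMap.charpoly_monic`, `LinearMap.charpoly_natDegree`, `finrank_fintype_fun_eq_card`).
(1) `X^(n-l) ∣ χ`: `W` = the functions vanishing on `cyc δ a c` is `R`-invariant, of dimension `n - l`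
(it is the kernel of the restriction `(Q → ℚ) → (cyc → ℚ)`, which is surjective;
`LinearMap.finrank_range_add_finrank_ker`, or an equivalence with `{q // q ∉ cyc} → ℚ`). `R^(n-l)` is
zero on `W` by `to_cyc`, so `R.restrict` on `W` is nilpotent and its characteristic polynomial is
`X^(n-l)` (`IsNilpotent.charpoly_eq_X_pow_finrank` or `LinearMap.charpoly_eq_X_pow_iff`). Use
`charpoly_top`.
(2) `X^l - 1 ∣ χ`: `χ(R) = 0` (Cayley-Hamilton). Write `χ = (X^l - 1) * u + r`, `r = χ %ₘ (X^l - 1)`,
`degree r < l` (`X^l - 1` is monic, `l > 0`). For every `f` put `g = R^(n-l) f`; by `rep_period`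
`R^l g = g`, so `0 = χ(R) g = r(R) g`. Take `f` the indicator function of the state `c`.
Then `g q = 1` iff `act δ q (replicate (n-l) a) = c`. By `cyc_reach` (from
`act δ c (replicate (n-l+i) a)`, which is in the cycle, to `c`...) for `i < l` choose `x_i ∈ cyc` with
`act δ x_i (replicate (n-l+i) a) = c` (the power `n-l+i` of `a` is a permutation of the cycle: it is
injective by `rep_inj`, hence surjective); then for `j < l`:
`(R^j g) x_i = 1` iff `act δ x_i (replicate (n-l+j) a) = c` iff `j = i` (two exponents `j, i < l` with the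
same image would give a period shorter than the minimal period `l`). So
`0 = (r(R) g) x_i = ∑_{j<l} r_j (R^j g) x_i = r_i`, and `r = 0`.
(3) `X^(n-l)` and `X^l - 1` are coprime (`X * X^(l-1) - (X^l - 1) = 1`; `IsCoprime.pow_left`), so
their product divides `χ`; both are monic of degree `n`, so they are equal
(`Polynomial.eq_of_monic_of_dvd_of_natDegree_le` or similar); `(X^l - 1) X^(n-l) = X^n - X^(n-l)` since
`l ≤ n`.
-/

namespace Pool.Agent.Work.MP_446a37_lc.OC

open Finset Polynomial

variable {Q A : Type} [Fintype Q] [DecidableEq Q] {δ : Q → A → Q} {a : A} {c : Q}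

private lemma cp_pow (k : ℕ) (f : Q → ℚ) (q : Q) :
    ((pw δ [a]) ^ k) f q = f ((fun q => δ q a)^[k] q) := by
  induction k generalizing q with
  | zero => rfl
  | succ k ih =>
    rw [pow_succ', Module.End.mul_apply, pw_apply, ih, Function.iterate_succ_apply]
    rfl

private lemma cp_mem {i : ℕ} (hi : i < ell δ a c) :
    (fun q => δ q a)^[i] c ∈ cyc δ a c := by
  unfold cyc
  refine Finset.mem_image.mpr ⟨i, Finset.mem_range.mpr hi, ?_⟩
  rw [act_replicate]

theorem charpoly_oc (h : OneCl δ a c) :
    (pw δ [a]).charpoly =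
      (X ^ Fintype.card Q - X ^ (Fintype.card Q - ell δ a c) : ℚ[X]) := by
  classical
  set R := pw δ [a] with hR
  set l := ell δ a c with hl
  set n := Fintype.card Q with hn
  have hl0 : 0 < l := ell_pos h
  have hln : l ≤ n := ell_le h
  let ρ : (Q → ℚ) →ₗ[ℚ] ({q // q ∈ cyc δ a c} → ℚ) := LinearMap.funLeft ℚ ℚ Subtype.val
  have hρ : Function.Surjective ρ :=
    LinearMap.funLeft_surjective_of_injective ℚ ℚ _ Subtype.val_injective
  let W : Submodule ℚ (Q → ℚ) := LinearMap.ker ρ
  have hWmem : ∀ w : Q → ℚ, w ∈ W ↔ ∀ q ∈ cyc δ a c, w q = 0 := by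
    intro w
    constructor
    · intro hw q hq
      exact congrFun (LinearMap.mem_ker.mp hw) ⟨q, hq⟩
    · intro hw
      refine LinearMap.mem_ker.mpr (funext fun q => ?_)
      exact hw q.1 q.2
  have hW : ∀ v ∈ W, R v ∈ W := by
    intro v hv
    rw [hWmem] at hv ⊢
    intro q hq
    exact hv _ (cyc_step h hq)
  have hfin : Module.finrank ℚ W = n - l := by
    have h1 := LinearMap.finrank_range_add_finrank_ker ρ
    rw [LinearMap.range_eq_top.mpr hρ, finrank_top, Module.finrank_fintype_fun_eq_card,
      Module.finrank_fintype_fun_eq_card, Fintype.card_coe, card_cyc h] at h1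
    have h2 : Module.finrank ℚ W = Module.finrank ℚ (LinearMap.ker ρ) := rfl
    omega
  have hrp : ∀ (k : ℕ) (w : W), ((((R.restrict hW) ^ k) w : W) : Q → ℚ) = (R ^ k) w.1 := by
    intro k
    induction k with
    | zero => intro w; rfl
    | succ k ih =>
      intro w
      rw [pow_succ', Module.End.mul_apply, pow_succ', Module.End.mul_apply, ← ih]
      rfl
  have hnil : IsNilpotent (R.restrict hW) := by
    refine ⟨n - l, LinearMap.ext fun w => Subtype.ext ?_⟩
    rw [hrp]
    funext q
    rw [cp_pow]
    have h1 := to_cyc h q (k := n - l) (by omega)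
    rw [act_replicate] at h1
    exact (hWmem w.1).mp w.2 _ h1
  obtain ⟨P, hP1, hP2⟩ := charpoly_top R W hW
  have hW2 : (R.restrict hW).charpoly = X ^ (n - l) := by
    rw [_root_.IsNilpotent.charpoly_eq_X_pow_finrank hnil, hfin]
  rw [hW2] at hP2
  have hmon : R.charpoly.Monic := LinearMap.charpoly_monic R
  have hdeg : R.charpoly.natDegree = n := by
    rw [LinearMap.charpoly_natDegree, Module.finrank_fintype_fun_eq_card]
  have hPm : P.Monic := by
    rw [hP2] at hmon
    exact Polynomial.Monic.of_mul_monic_left (monic_X_pow _) hmon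
  have hPd : P.natDegree = l := by
    rw [hP2, (monic_X_pow (n - l)).natDegree_mul hPm, natDegree_X_pow] at hdeg
    omega
  have hsum : ∀ (f : Q → ℚ) (x : Q), (aeval R P f) x =
      ∑ j ∈ Finset.range (l + 1), P.coeff j * f ((fun q => δ q a)^[j] x) := by
    intro f x
    rw [aeval_eq_sum_range, hPd, LinearMap.sum_apply, Finset.sum_apply]
    refine Finset.sum_congr rfl fun j _ => ?_
    rw [LinearMap.smul_apply, Pi.smul_apply, cp_pow, smul_eq_mul]
  have hiter : ∀ m : ℕ, (fun q => δ q a)^[m] c = c ↔ l ∣ m := by
    intro m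
    exact Function.isPeriodicPt_iff_minimalPeriod_dvd
  let f : Q → ℚ := fun q => if q = c then 1 else 0
  have h0 : P.coeff 0 + P.coeff l = 0 := by
    have h1 := (hWmem _).mp (hP1 f) c (base_mem h)
    rw [hsum] at h1
    have h2 : ∀ j ∈ Finset.range (l + 1), P.coeff j * f ((fun q => δ q a)^[j] c) =
        if j = 0 ∨ j = l then P.coeff j else 0 := by
      intro j hj
      have hj' : j ≤ l := by
        have := Finset.mem_range.mp hj
        omega
      have h3 : (fun q => δ q a)^[j] c = c ↔ j = 0 ∨ j = l := by
        rw [hiter]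
        constructor
        · rintro ⟨k, hk⟩
          rcases Nat.eq_zero_or_pos k with h4 | h4
          · left; rw [hk, h4, mul_zero]
          · right
            have : l * 1 ≤ l * k := Nat.mul_le_mul_left l h4
            omega
        · rintro (h4 | h4)
          · rw [h4]; exact dvd_zero _
          · rw [h4]
      by_cases h4 : j = 0 ∨ j = l
      · rw [if_pos h4]
        simp only [f, if_pos (h3.mpr h4), mul_one]
      · rw [if_neg h4]
        simp only [f, if_neg (fun h5 => h4 (h3.mp h5)), mul_zero]
    rw [Finset.sum_congr rfl h2, ← Finset.sum_filter] at h1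
    have h5 : (Finset.range (l + 1)).filter (fun j => j = 0 ∨ j = l) = {0, l} := by
      ext j
      simp only [Finset.mem_filter, Finset.mem_range, Finset.mem_insert, Finset.mem_singleton]
      omega
    rw [h5, Finset.sum_pair hl0.ne] at h1
    exact h1
  have hi : ∀ i, 0 < i → i < l → P.coeff i = 0 := by
    intro i hi0 hil
    have h1 := (hWmem _).mp (hP1 f) ((fun q => δ q a)^[l - i] c) (cp_mem (by omega))
    rw [hsum, Finset.sum_eq_single i] at h1
    · have h2 : (fun q => δ q a)^[i] ((fun q => δ q a)^[l - i] c) = c := by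
        rw [← Function.iterate_add_apply, hiter]
        rw [show i + (l - i) = l by omega]
      simp only [f, h2, if_true, mul_one] at h1
      exact h1
    · intro j hj hji
      have hj' : j ≤ l := by
        have := Finset.mem_range.mp hj
        omega
      have h2 : ¬ (fun q => δ q a)^[j] ((fun q => δ q a)^[l - i] c) = c := by
        rw [← Function.iterate_add_apply, hiter]
        rintro ⟨k, hk⟩
        have hk0 : k ≠ 0 := by
          rintro rfl
          rw [mul_zero] at hk
          omega
        have hk2 : k < 2 := by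
          by_contra h4
          have : l * 2 ≤ l * k := Nat.mul_le_mul_left l (by omega)
          omega
        have hk1 : k = 1 := by omega
        rw [hk1, mul_one] at hk
        omega
      simp only [f, if_neg h2, mul_zero]
    · intro hc
      exact absurd (Finset.mem_range.mpr (by omega)) hc
  have hPX : P = X ^ l - 1 := by
    have hlc : P.coeff l = 1 := by
      have := hPm.coeff_natDegree
      rwa [hPd] at this
    ext i
    rw [coeff_sub, coeff_X_pow, coeff_one]
    rcases lt_trichotomy i l with h1 | h1 | h1
    · rcases Nat.eq_zero_or_pos i with h2 | h2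
      · subst h2
        rw [if_neg hl0.ne, if_pos rfl]
        rw [hlc] at h0
        linarith
      · rw [hi i h2 h1, if_neg h1.ne, if_neg h2.ne']
        norm_num
    · subst h1
      rw [if_pos rfl, if_neg hl0.ne', hlc]
      norm_num
    · rw [if_neg h1.ne', if_neg (by omega), coeff_eq_zero_of_natDegree_lt (by omega)]
      norm_num
  rw [hP2, hPX, mul_sub, mul_one, ← pow_add, show n - l + l = n by omega]

end Pool.Agent.Work.MP_446a37_lc.OC
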