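import Pool.Agent.Work.MP_446a37_lc.Aut

/-!
One-cluster automata: definitions shared by the modules of this folder (complete, do not change).
-/

namespace Pool.Agent.Work.MP_446a37_lc.OC

open Finset

variable {Q A : Type} [Fintype Q] [DecidableEq Q]

/-- Every state is sent to `c` by some power of the letter `a`: the graph of `a` has exactly one
cycle, and `c` lies on it. -/
def OneCl (δ : Q → A → Q) (a : A) (c : Q) : Prop :=
  ∀ q, ∃ k : ℕ, act δ q (List.replicate k a) = c

/-- length of the cycle of the letter `a` through `c` -/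
noncomputable def ell (δ : Q → A → Q) (a : A) (c : Q) : ℕ :=
  Function.minimalPeriod (fun q => δ q a) c

/-- the states on the cycle of the letter `a` through `c` -/
noncomputable def cyc (δ : Q → A → Q) (a : A) (c : Q) : Finset Q :=
  (range (ell δ a c)).image fun i => act δ c (List.replicate i a)

/-- composition of a function on the states with the action of the word `u` -/
def pw (δ : Q → A → Q) (u : List A) : (Q → ℚ) →ₗ[ℚ] (Q → ℚ) :=
  LinearMap.funLeft ℚ ℚ fun q => act δ q u

/-- sum of the values on the cycle -/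
noncomputable def sg (δ : Q → A → Q) (a : A) (c : Q) : (Q → ℚ) →ₗ[ℚ] ℚ :=
  ∑ x ∈ cyc δ a c, LinearMap.proj x

/-- number of letters different from `a` -/
noncomputable def nl (a : A) (w : List A) : ℕ :=
  open Classical in w.countP fun x => decide (x ≠ a)

/-- the words of length `d` obtained by inserting letters `a` into the word
`c (t-1) ... c 1 c 0` -/
def WW (a : A) (c : ℕ → A) : ℕ → ℕ → List (List A)
  | 0, d => [List.replicate d a]
  | _ + 1, 0 => []
  | t + 1, d + 1 => (WW a c (t + 1) d).map (a :: ·) ++ (WW a c t d).map (c t :: ·)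

section

variable {K V : Type*} [Field K] [AddCommGroup V] [Module K V]

/-- the sum of all products of `d` factors that contain the factors `T (t-1), ..., T 1, T 0` in
this order and `d - t` factors `R` -/
noncomputable def hh (R : V →ₗ[K] V) (T : ℕ → V →ₗ[K] V) : ℕ → ℕ → (V →ₗ[K] V)
  | 0, d => R ^ d
  | _ + 1, 0 => 0
  | t + 1, d + 1 => R ∘ₗ hh R T (t + 1) d + T t ∘ₗ hh R T t d

end

theorem pw_apply (δ : Q → A → Q) (u : List A) (f : Q → ℚ) (q : Q) :
    pw δ u f q = f (act δ q u) := rfl

theorem pw_nil (δ : Q → A → Q) (f : Q → ℚ) : pw δ [] f = f := rfl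

theorem pw_append (δ : Q → A → Q) (u v : List A) (f : Q → ℚ) :
    pw δ (u ++ v) f = pw δ u (pw δ v f) := by
  ext q
  rw [pw_apply, pw_apply, pw_apply, act_append]

theorem pw_cons (δ : Q → A → Q) (x : A) (v : List A) (f : Q → ℚ) :
    pw δ (x :: v) f = pw δ [x] (pw δ v f) := pw_append δ [x] v f

theorem sg_apply (δ : Q → A → Q) (a : A) (c : Q) (f : Q → ℚ) :
    sg δ a c f = ∑ x ∈ cyc δ a c, f x := by
  simp [sg]

end Pool.Agent.Work.MP_446a37_lc.OC
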