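import Pool.Agent.Work.MP_446a37_lc.OC.Defs
import Pool.Agent.Work.MP_446a37_lc.OC.ChP

/-!
MODULE Gr (M). Graded Cayley-Hamilton theorem. `R` preserves `F 0 ≤ F 1 ≤ ... ≤ F k`, EVERY `T t`
maps `F s` into `F (s+1)` for `s < k`. Then for `f ∈ F 0` the combination
`∑_d χ_d hh R T (k+1) d f`, `χ` the characteristic polynomial of `R` on `V`, lies in `F k`.

PROOF. Put `E t = F t` for `t ≤ k` and `E t = ⊤` for `t > k`, so `E` is monotone and `R`-invariant and
`T t` maps `E s` into `E (s+1)` for all `t, s`.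
(1) Polynomials `P 0, ..., P (k+1)` with `P 0 (R) = 0` on `E 0`, `P (t+1) (R) E (t+1) ≤ E t` and
`∏_{t ≤ k+1} P t = R.charpoly`: by induction from `charpoly_kills`, `charpoly_split`, `charpoly_top`
(statement for `m ≤ k`: `∏_{t ≤ m} P t = (R.restrict (F m invariant)).charpoly`, last step
`charpoly_top`).
(2) On the space `ℕ → V` let `AA v 0 = R (v 0)`, `AA v (t+1) = R (v (t+1)) + T t (v t)` (a linear map).
For `v0 = (f, 0, 0, ...)`: `(AA^d v0) t = hh R T t d f` (induction on `d`; for `d = 0` and `t = 0` both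
are `f`, for `d = 0`, `t > 0` both are `0`; `hh R T 0 (d+1) = R^(d+1) = R ∘ R^d`, `pow_succ'`).
(3) For `s : ℕ` let `G s` be the submodule of all `v : ℕ → V` such that for all `t`:
`v t ∈ E t` if `s ≤ t`; and if `t < s` then `v t ∈ E (t-1)` for `t ≥ 1`, `v 0 = 0` for `t = 0`. In both
cases `v t ∈ E t`. `G s` is preserved by `AA`: coordinate `t+1` of `AA v` is `R (v (t+1)) + T t (v t)`.
If `s ≤ t+1`, both terms are in `E (t+1)` since `v t ∈ E t`. If `t+1 < s` then `v (t+1) ∈ E t`, and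
`v t = 0` (`t = 0`) or `v t ∈ E (t-1)`, so `T t (v t) ∈ E t`.
(4) `aeval AA (P s)` maps `G s` into `G (s+1)`: only the coordinate `s` matters (the other conditions
are preserved by `AA`, hence by `aeval AA p` for every `p`), and
`(AA^d v) s - R^d (v s) ∈ E (s-1)` (`= 0` if `s = 0`) for `v ∈ G s`, by induction on `d`:
`(AA^(d+1) v) s = R ((AA^d v) s) + T (s-1) ((AA^d v) (s-1))` and `(AA^d v) (s-1) ∈ E (s-2)` (`= 0` if
`s = 1`) because `AA^d v ∈ G s`. So `(aeval AA p v) s - aeval R p (v s) ∈ E (s-1)` for every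
polynomial `p` (sum over the coefficients), and `aeval R (P s) (v s) ∈ E (s-1)` by (1).
(5) `v0 ∈ G 0`, so `aeval AA (∏_{t ≤ k+1} P t) v0 ∈ G (k+2)` (induction over the number of factors),
whose coordinate `k+1` lies in `E k = F k`; by (2) it is `∑_d χ_d hh R T (k+1) d f`.
-/

namespace Pool.Agent.Work.MP_446a37_lc.OC

open Polynomial

section

variable {K V : Type*} [Field K] [AddCommGroup V] [Module K V]

/-- the shifted filtration -/
private noncomputable def HH (F : ℕ → Submodule K V) (k : ℕ) : ℕ → Submodule K V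
  | 0 => ⊥
  | t + 1 => open Classical in if t ≤ k then F t else ⊤

private theorem HH_le {F : ℕ → Submodule K V} {k t : ℕ} (h : t ≤ k) : HH F k (t + 1) = F t := by
  simp only [HH, if_pos h]

private theorem HH_gt {F : ℕ → Submodule K V} {k t : ℕ} (h : k < t) : HH F k (t + 1) = ⊤ := by
  simp only [HH, if_neg (not_le.mpr h)]

private theorem HH_zero (F : ℕ → Submodule K V) (k : ℕ) : HH F k 0 = ⊥ := rfl

private theorem HH_succ {F : ℕ → Submodule K V} {k : ℕ} (hF : ∀ t, t < k → F t ≤ F (t + 1))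
    (t : ℕ) : HH F k t ≤ HH F k (t + 1) := by
  cases t with
  | zero => exact bot_le
  | succ t =>
    by_cases h : t + 1 ≤ k
    · rw [HH_le (by omega), HH_le h]
      exact hF t (by omega)
    · rw [HH_gt (t := t + 1) (by omega)]
      exact le_top

private theorem HH_R {R : V →ₗ[K] V} {F : ℕ → Submodule K V} {k : ℕ}
    (hR : ∀ t, t ≤ k → ∀ v ∈ F t, R v ∈ F t) (t : ℕ) : ∀ v ∈ HH F k t, R v ∈ HH F k t := by
  intro v hv
  cases t with
  | zero =>
    rw [HH_zero, Submodule.mem_bot] at hv ⊢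
    rw [hv, map_zero]
  | succ t =>
    by_cases h : t ≤ k
    · rw [HH_le h] at hv ⊢
      exact hR t h v hv
    · rw [HH_gt (by omega)]
      exact Submodule.mem_top

private theorem HH_T {T : ℕ → V →ₗ[K] V} {F : ℕ → Submodule K V} {k : ℕ}
    (hT : ∀ t, ∀ s, s < k → ∀ v ∈ F s, T t v ∈ F (s + 1)) (t s : ℕ) :
    ∀ v ∈ HH F k s, T t v ∈ HH F k (s + 1) := by
  intro v hv
  cases s with
  | zero =>
    rw [HH_zero, Submodule.mem_bot] at hv
    rw [hv, map_zero]
    exact Submodule.zero_mem _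
  | succ s =>
    by_cases h : s + 1 ≤ k
    · rw [HH_le (by omega)] at hv
      rw [HH_le h]
      exact hT t s (by omega) v hv
    · rw [HH_gt (t := s + 1) (by omega)]
      exact Submodule.mem_top

private theorem chain [FiniteDimensional K V] (R : V →ₗ[K] V) (F : ℕ → Submodule K V) (k : ℕ)
    (hR : ∀ t, t ≤ k → ∀ v ∈ F t, R v ∈ F t) (hF : ∀ t, t < k → F t ≤ F (t + 1)) (m : ℕ)
    (hm : m ≤ k) :
    ∃ P : ℕ → K[X], (∀ s ≤ m, ∀ v ∈ HH F k (s + 1), aeval R (P s) v ∈ HH F k s) ∧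
      ∏ s ∈ Finset.range (m + 1), P s = (R.restrict (hR m hm)).charpoly := by
  induction m with
  | zero =>
    refine ⟨fun _ => (R.restrict (hR 0 hm)).charpoly, ?_, ?_⟩
    · intro s hs v hv
      have hs0 : s = 0 := by omega
      subst hs0
      rw [HH_le (by omega)] at hv
      rw [charpoly_kills R (F 0) (hR 0 hm) v hv]
      exact Submodule.zero_mem _
    · rw [zero_add, Finset.prod_range_one]
  | succ m ih =>
    obtain ⟨P, hP1, hP2⟩ := ih (by omega)
    obtain ⟨P', hP'1, hP'2⟩ := charpoly_split R (F m) (F (m + 1)) (hR m (by omega)) (hR (m + 1) hm)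
      (hF m (by omega))
    refine ⟨Function.update P (m + 1) P', ?_, ?_⟩
    · intro s hs v hv
      rcases Nat.lt_or_ge m s with h1 | h1
      · have hs1 : s = m + 1 := by omega
        subst hs1
        rw [Function.update_self]
        rw [HH_le hm] at hv
        rw [HH_le (by omega)]
        exact hP'1 v hv
      · rw [Function.update_of_ne (by omega)]
        exact hP1 s h1 v hv
    · rw [Finset.prod_range_succ, Function.update_self, hP'2, ← hP2]
      congr 1
      refine Finset.prod_congr rfl (fun s hs => ?_)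
      rw [Finset.mem_range] at hs
      rw [Function.update_of_ne (by omega)]

private theorem chain_top [FiniteDimensional K V] (R : V →ₗ[K] V) (F : ℕ → Submodule K V) (k : ℕ)
    (hR : ∀ t, t ≤ k → ∀ v ∈ F t, R v ∈ F t) (hF : ∀ t, t < k → F t ≤ F (t + 1)) :
    ∃ P : ℕ → K[X], (∀ s ≤ k + 1, ∀ v ∈ HH F k (s + 1), aeval R (P s) v ∈ HH F k s) ∧
      ∏ s ∈ Finset.range (k + 2), P s = R.charpoly := by
  obtain ⟨P, hP1, hP2⟩ := chain R F k hR hF k le_rfl
  obtain ⟨P', hP'1, hP'2⟩ := charpoly_top R (F k) (hR k le_rfl)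
  refine ⟨Function.update P (k + 1) P', ?_, ?_⟩
  · intro s hs v hv
    rcases Nat.lt_or_ge k s with h1 | h1
    · have hs1 : s = k + 1 := by omega
      subst hs1
      rw [Function.update_self, HH_le le_rfl]
      exact hP'1 v
    · rw [Function.update_of_ne (by omega)]
      exact hP1 s h1 v hv
  · rw [Finset.prod_range_succ, Function.update_self, hP'2, ← hP2]
    congr 1
    refine Finset.prod_congr rfl (fun s hs => ?_)
    rw [Finset.mem_range] at hs
    rw [Function.update_of_ne (by omega)]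

/-- the operator on sequences -/
private noncomputable def AA (R : V →ₗ[K] V) (T : ℕ → V →ₗ[K] V) : (ℕ → V) →ₗ[K] (ℕ → V) :=
  LinearMap.pi fun t => match t with
    | 0 => R ∘ₗ LinearMap.proj 0
    | t + 1 => R ∘ₗ LinearMap.proj (t + 1) + T t ∘ₗ LinearMap.proj t

private theorem AA_zero (R : V →ₗ[K] V) (T : ℕ → V →ₗ[K] V) (v : ℕ → V) :
    AA R T v 0 = R (v 0) := rfl

private theorem AA_succ (R : V →ₗ[K] V) (T : ℕ → V →ₗ[K] V) (v : ℕ → V) (t : ℕ) :
    AA R T v (t + 1) = R (v (t + 1)) + T t (v t) := rfl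

private theorem hh_zero_left (R : V →ₗ[K] V) (T : ℕ → V →ₗ[K] V) (d : ℕ) :
    hh R T 0 d = R ^ d := by
  cases d <;> rfl

private theorem AA_pow_hh (R : V →ₗ[K] V) (T : ℕ → V →ₗ[K] V) (f : V) (d t : ℕ) :
    ((AA R T ^ d) (fun t => if t = 0 then f else 0)) t = hh R T t d f := by
  induction d generalizing t with
  | zero =>
    rw [pow_zero, Module.End.one_apply]
    cases t with
    | zero =>
      rw [if_pos rfl]
      rfl
    | succ t =>
      rw [if_neg (Nat.succ_ne_zero t)]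
      rfl
  | succ d ih =>
    rw [pow_succ', Module.End.mul_apply]
    cases t with
    | zero =>
      rw [AA_zero, ih, hh_zero_left, hh_zero_left, pow_succ', Module.End.mul_apply]
    | succ t =>
      rw [AA_succ, ih, ih]
      rfl

/-- the graded conditions -/
private noncomputable def GG (F : ℕ → Submodule K V) (k s : ℕ) : Submodule K (ℕ → V) where
  carrier := {v | ∀ t, (s ≤ t → v t ∈ HH F k (t + 1)) ∧ (t < s → v t ∈ HH F k t)}
  zero_mem' := fun _ => ⟨fun _ => Submodule.zero_mem _, fun _ => Submodule.zero_mem _⟩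
  add_mem' := fun ha hb t => ⟨fun h => Submodule.add_mem _ ((ha t).1 h) ((hb t).1 h),
    fun h => Submodule.add_mem _ ((ha t).2 h) ((hb t).2 h)⟩
  smul_mem' := fun c _ ha t => ⟨fun h => Submodule.smul_mem _ c ((ha t).1 h),
    fun h => Submodule.smul_mem _ c ((ha t).2 h)⟩

private theorem mem_GG {F : ℕ → Submodule K V} {k s : ℕ} {v : ℕ → V} : v ∈ GG F k s ↔
    ∀ t, (s ≤ t → v t ∈ HH F k (t + 1)) ∧ (t < s → v t ∈ HH F k t) := Iff.rfl

private theorem AA_GG {R : V →ₗ[K] V} {T : ℕ → V →ₗ[K] V} {F : ℕ → Submodule K V} {k : ℕ}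
    (hR : ∀ t, t ≤ k → ∀ v ∈ F t, R v ∈ F t) (hF : ∀ t, t < k → F t ≤ F (t + 1))
    (hT : ∀ t, ∀ s, s < k → ∀ v ∈ F s, T t v ∈ F (s + 1)) (s : ℕ) {v : ℕ → V}
    (hv : v ∈ GG F k s) : AA R T v ∈ GG F k s := by
  rw [mem_GG] at hv ⊢
  have hall : ∀ t, v t ∈ HH F k (t + 1) := by
    intro t
    rcases Nat.lt_or_ge t s with h | h
    · exact HH_succ hF t ((hv t).2 h)
    · exact (hv t).1 h
  intro t
  cases t with
  | zero =>
    rw [AA_zero]
    exact ⟨fun h => HH_R hR _ _ ((hv 0).1 h), fun h => HH_R hR _ _ ((hv 0).2 h)⟩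
  | succ t =>
    rw [AA_succ]
    refine ⟨fun h => Submodule.add_mem _ (HH_R hR _ _ ((hv (t + 1)).1 h)) (HH_T hT t _ _ (hall t)),
      fun h => Submodule.add_mem _ (HH_R hR _ _ ((hv (t + 1)).2 h)) (HH_T hT t _ _ ((hv t).2 (by omega)))⟩

private theorem aeval_GG {R : V →ₗ[K] V} {T : ℕ → V →ₗ[K] V} {F : ℕ → Submodule K V} {k : ℕ}
    (hR : ∀ t, t ≤ k → ∀ v ∈ F t, R v ∈ F t) (hF : ∀ t, t < k → F t ≤ F (t + 1))
    (hT : ∀ t, ∀ s, s < k → ∀ v ∈ F s, T t v ∈ F (s + 1)) (s : ℕ) (d : ℕ) {v : ℕ → V}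
    (hv : v ∈ GG F k s) : (AA R T ^ d) v ∈ GG F k s := by
  induction d with
  | zero => exact hv
  | succ d ih =>
    rw [pow_succ', Module.End.mul_apply]
    exact AA_GG hR hF hT s ih

private theorem diff_pow {R : V →ₗ[K] V} {T : ℕ → V →ₗ[K] V} {F : ℕ → Submodule K V} {k : ℕ}
    (hR : ∀ t, t ≤ k → ∀ v ∈ F t, R v ∈ F t) (hF : ∀ t, t < k → F t ≤ F (t + 1))
    (hT : ∀ t, ∀ s, s < k → ∀ v ∈ F s, T t v ∈ F (s + 1)) (s : ℕ) (d : ℕ) {v : ℕ → V}
    (hv : v ∈ GG F k s) : ((AA R T ^ d) v) s - (R ^ d) (v s) ∈ HH F k s := by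
  induction d with
  | zero =>
    rw [pow_zero, pow_zero, Module.End.one_apply, Module.End.one_apply, sub_self]
    exact Submodule.zero_mem _
  | succ d ih =>
    rw [pow_succ', pow_succ', Module.End.mul_apply, Module.End.mul_apply]
    cases s with
    | zero =>
      rw [AA_zero, ← map_sub]
      exact HH_R hR _ _ ih
    | succ s =>
      rw [AA_succ]
      have h1 : R (((AA R T ^ d) v) (s + 1)) + T s (((AA R T ^ d) v) s) - R ((R ^ d) (v (s + 1))) =
          R (((AA R T ^ d) v) (s + 1) - (R ^ d) (v (s + 1))) + T s (((AA R T ^ d) v) s) := by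
        rw [map_sub]
        abel
      rw [h1]
      refine Submodule.add_mem _ (HH_R hR _ _ ih) (HH_T hT s _ _ ?_)
      exact ((mem_GG.1 (aeval_GG hR hF hT (s + 1) d hv)) s).2 (Nat.lt_succ_self s)

private theorem step {R : V →ₗ[K] V} {T : ℕ → V →ₗ[K] V} {F : ℕ → Submodule K V} {k : ℕ}
    (hR : ∀ t, t ≤ k → ∀ v ∈ F t, R v ∈ F t) (hF : ∀ t, t < k → F t ≤ F (t + 1))
    (hT : ∀ t, ∀ s, s < k → ∀ v ∈ F s, T t v ∈ F (s + 1)) (s : ℕ) {p : K[X]}
    (hp : ∀ v ∈ HH F k (s + 1), aeval R p v ∈ HH F k s) {v : ℕ → V}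
    (hv : v ∈ GG F k s) : aeval (AA R T) p v ∈ GG F k (s + 1) := by
  have h1 : aeval (AA R T) p v ∈ GG F k s := by
    rw [aeval_eq_sum_range, LinearMap.sum_apply]
    refine Submodule.sum_mem _ (fun d _ => ?_)
    rw [LinearMap.smul_apply]
    exact Submodule.smul_mem _ _ (aeval_GG hR hF hT s d hv)
  have h2 : (aeval (AA R T) p v) s - aeval R p (v s) ∈ HH F k s := by
    have e : (aeval (AA R T) p v) s - aeval R p (v s) = ∑ d ∈ Finset.range (p.natDegree + 1),
        p.coeff d • (((AA R T ^ d) v) s - (R ^ d) (v s)) := by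
      rw [aeval_eq_sum_range, aeval_eq_sum_range, LinearMap.sum_apply, LinearMap.sum_apply,
        Finset.sum_apply, ← Finset.sum_sub_distrib]
      refine Finset.sum_congr rfl (fun d _ => ?_)
      rw [LinearMap.smul_apply, LinearMap.smul_apply, Pi.smul_apply, smul_sub]
    rw [e]
    exact Submodule.sum_mem _ (fun d _ => Submodule.smul_mem _ _ (diff_pow hR hF hT s d hv))
  have h3 : (aeval (AA R T) p v) s ∈ HH F k s := by
    have h4 := Submodule.add_mem _ h2 (hp _ (((mem_GG.1 hv) s).1 le_rfl))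
    rwa [sub_add_cancel] at h4
  rw [mem_GG] at h1 ⊢
  intro t
  refine ⟨fun h => (h1 t).1 (by omega), fun h => ?_⟩
  rcases Nat.lt_or_ge t s with h5 | h5
  · exact (h1 t).2 h5
  · have h6 : t = s := by omega
    rw [h6]
    exact h3

end

theorem graded_charpoly {K V : Type*} [Field K] [AddCommGroup V] [Module K V]
    [FiniteDimensional K V] (R : V →ₗ[K] V) (T : ℕ → V →ₗ[K] V) (F : ℕ → Submodule K V) (k : ℕ)
    (hR : ∀ t, t ≤ k → ∀ v ∈ F t, R v ∈ F t) (hF : ∀ t, t < k → F t ≤ F (t + 1))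
    (hT : ∀ t, ∀ s, s < k → ∀ v ∈ F s, T t v ∈ F (s + 1)) (f : V) (hf : f ∈ F 0) :
    (R.charpoly.sum fun d x => x • hh R T (k + 1) d f) ∈ F k := by
  obtain ⟨P, hP1, hP2⟩ := chain_top R F k hR hF
  have h0 : (fun t : ℕ => if t = 0 then f else 0) ∈ GG F k 0 := by
    rw [mem_GG]
    intro t
    refine ⟨fun _ => ?_, fun h => absurd h (Nat.not_lt_zero t)⟩
    cases t with
    | zero =>
      rw [if_pos rfl, HH_le (Nat.zero_le k)]
      exact hf
    | succ t =>
      rw [if_neg (Nat.succ_ne_zero t)]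
      exact Submodule.zero_mem _
  have hprod : ∀ m ≤ k + 2, aeval (AA R T) (∏ s ∈ Finset.range m, P s)
      (fun t : ℕ => if t = 0 then f else 0) ∈ GG F k m := by
    intro m
    induction m with
    | zero =>
      intro _
      rw [Finset.prod_range_zero, map_one, Module.End.one_apply]
      exact h0
    | succ m ih =>
      intro hm
      rw [Finset.prod_range_succ, mul_comm, map_mul, Module.End.mul_apply]
      exact step hR hF hT m (hP1 m (by omega)) (ih (by omega))
  have h1 := ((mem_GG.1 (hprod (k + 2) le_rfl)) (k + 1)).2 (by omega)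
  rw [hP2, HH_le le_rfl] at h1
  have h2 : (aeval (AA R T) R.charpoly (fun t : ℕ => if t = 0 then f else 0)) (k + 1) =
      R.charpoly.sum fun d x => x • hh R T (k + 1) d f := by
    rw [aeval_def, eval₂_eq_sum, Polynomial.sum, LinearMap.sum_apply, Finset.sum_apply,
      Polynomial.sum]
    refine Finset.sum_congr rfl (fun d _ => ?_)
    rw [Module.End.mul_apply, Module.algebraMap_end_apply, Pi.smul_apply, AA_pow_hh]
  rw [← h2]
  exact h1

end Pool.Agent.Work.MP_446a37_lc.OC
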