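import Pool.Agent.Work.MP_446a37_lc.OC.Wd

/-!
MODULE Mw (M). A shortest word detecting `f` is short: independence of the suffix vectors.

PROOF of `min_word`. Among all pairs `(x, w)` with `nl a w ≤ J` and `σ (pw δ (x :: w) f) ≠ 0` choose
one with `w` of minimal length `m` (`Nat.find` on the length). Let `g i = pw δ (w.drop (m - i)) f`
for `i ≤ m` (the suffix of length `i`). All `g i` lie in `ker σ`, because
`nl a (w.drop _) ≤ nl a w ≤ J` (hypothesis `h1`). Claim: `g i` is not in the span of
`g 0, ..., g (i-1)` (for `i ≤ m`). Otherwise `g i = ∑_{j<i} r_j g j`; apply the linear map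
`σ ∘ pw δ (x :: w.take (m - i))`: the left side is `σ (pw δ (x :: w) f) ≠ 0`, and the term `j` of the
right side is `r_j σ (pw δ (x :: (w.take (m-i) ++ w.drop (m-j))) f)`, whose word
`w.take (m-i) ++ w.drop (m-j)` has length `m - i + j < m` and `nl` at most `nl a w ≤ J` (it is
a subword: `nl (take) + nl (drop (m-j)) ≤ nl (take) + nl (drop (m-i))` since `drop (m-j)` is a suffix of
`drop (m-i)`), so it is `0` by minimality. Formally: the submodule
`N = {g | σ (pw δ (x :: w.take (m-i)) g) = 0}` contains `g 0, ..., g (i-1)` but not `g i`.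
Hence the submodules `G i = span {g j : j < i}` satisfy `finrank (G (i+1)) ≥ finrank (G i) + 1`
(`Submodule.finrank_lt_finrank_of_lt`), so `finrank (G (m+1)) ≥ m + 1`; `G (m+1) ≤ ker σ` and
`finrank (ker σ) = card Q - 1` (`σ ≠ 0` since it is nonzero somewhere; rank-nullity). So
`m + 1 ≤ card Q - 1`.
-/

namespace Pool.Agent.Work.MP_446a37_lc.OC

open Finset

variable {Q A : Type} [Fintype Q] [DecidableEq Q]

private theorem nl_drop_le (a : A) (w : List A) (k : ℕ) : nl a (w.drop k) ≤ nl a w := by
  conv_rhs => rw [← List.take_append_drop k w]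
  rw [nl_append]
  omega

theorem min_word (δ : Q → A → Q) (a : A) (σ : (Q → ℚ) →ₗ[ℚ] ℚ) (f : Q → ℚ) (J : ℕ)
    (h1 : ∀ w : List A, nl a w ≤ J → σ (pw δ w f) = 0)
    (h2 : ∃ x : A, ∃ w : List A, nl a w ≤ J ∧ σ (pw δ (x :: w) f) ≠ 0) :
    ∃ x : A, ∃ w : List A, nl a w ≤ J ∧ σ (pw δ (x :: w) f) ≠ 0 ∧
      w.length + 2 ≤ Fintype.card Q := by
  classical
  have hex : ∃ m, ∃ x : A, ∃ w : List A, w.length = m ∧ nl a w ≤ J ∧
      σ (pw δ (x :: w) f) ≠ 0 := by
    obtain ⟨x, w, hw, hne⟩ := h2
    exact ⟨_, x, w, rfl, hw, hne⟩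
  obtain ⟨x, w, hlen, hnl, hne⟩ := Nat.find_spec hex
  have hmin : ∀ (x' : A) (w' : List A), w'.length < Nat.find hex → nl a w' ≤ J →
      σ (pw δ (x' :: w') f) = 0 := by
    intro x' w' hl hn
    by_contra hc
    exact Nat.find_min hex hl ⟨x', w', rfl, hn, hc⟩
  refine ⟨x, w, hnl, hne, ?_⟩
  set m := Nat.find hex with hm
  set g : ℕ → (Q → ℚ) := fun i => pw δ (w.drop (m - i)) f with hg
  set G : ℕ → Submodule ℚ (Q → ℚ) := fun i => Submodule.span ℚ (g '' {j | j < i}) with hG
  have hnot : ∀ i, i ≤ m → g i ∉ G i := by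
    intro i hi hgi
    have hle : G i ≤ LinearMap.ker (σ ∘ₗ pw δ (x :: w.take (m - i))) := by
      refine Submodule.span_le.2 ?_
      rintro _ ⟨j, hj, rfl⟩
      have hj' : j < i := hj
      show σ (pw δ (x :: w.take (m - i)) (pw δ (w.drop (m - j)) f)) = 0
      rw [← pw_append, List.cons_append]
      refine hmin x _ ?_ ?_
      · rw [List.length_append, List.length_take, List.length_drop, hlen]
        omega
      · have e : w.drop (m - j) = (w.drop (m - i)).drop (i - j) := by
          rw [List.drop_drop]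
          congr 1
          omega
        have e2 := nl_drop_le a (w.drop (m - i)) (i - j)
        have e3 : nl a w = nl a (w.take (m - i)) + nl a (w.drop (m - i)) := by
          rw [← nl_append, List.take_append_drop]
        rw [nl_append, e]
        omega
    have h3 := hle hgi
    have h4 : σ (pw δ (x :: w.take (m - i)) (pw δ (w.drop (m - i)) f)) = 0 := h3
    rw [← pw_append, List.cons_append, List.take_append_drop] at h4
    exact hne h4
  have hfin : ∀ i, i ≤ m + 1 → i ≤ Module.finrank ℚ (G i) := by
    intro i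
    induction i with
    | zero => intro _; exact Nat.zero_le _
    | succ i ih =>
      intro hi
      have h3 := ih (by omega)
      have hlt : G i < G (i + 1) := by
        refine lt_of_le_of_ne (Submodule.span_mono (Set.image_mono fun j hj => ?_)) ?_
        · exact Nat.lt_succ_of_lt hj
        · intro heq
          refine hnot i (by omega) ?_
          rw [heq]
          exact Submodule.subset_span ⟨i, Nat.lt_succ_self i, rfl⟩
      have h4 := Submodule.finrank_lt_finrank_of_lt hlt
      omega
  have hker : G (m + 1) ≤ LinearMap.ker σ := by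
    refine Submodule.span_le.2 ?_
    rintro _ ⟨j, _, rfl⟩
    exact h1 _ ((nl_drop_le a w _).trans hnl)
  have h5 := hfin (m + 1) le_rfl
  have h6 := Submodule.finrank_mono hker
  have h7 := LinearMap.finrank_range_add_finrank_ker σ
  have h8 : LinearMap.range σ = ⊤ := by
    rw [LinearMap.range_eq_top]
    exact LinearMap.surjective (fun h0 => hne (by rw [h0, LinearMap.zero_apply]))
  rw [h8, finrank_top, Module.finrank_self, Module.finrank_fintype_fun_eq_card] at h7
  omega

end Pool.Agent.Work.MP_446a37_lc.OC
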