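import Pool.Agent.Work.MP_446a37_lc.OC.Bas
import Pool.Agent.Work.MP_446a37_lc.OC.Gr
import Pool.Agent.Work.MP_446a37_lc.OC.Cp
import Pool.Agent.Work.MP_446a37_lc.OC.Mw

/-!
MODULE Ext (M). The extension lemma for one-cluster automata.

PROOF of `ext_sat` (`n = card Q`, `l = ell`, `σ = sg δ a c`). Assume some word `u` has
`σ (pw u f) ≠ 0`. Let `J1` be the least value of `nl a u` over such `u` (`Nat.find`). `J1 ≥ 1`, as
`σ (pw (a^i) f) = σ f = 0` (`sg_rep`; a word with `nl = 0` is a power of `a`). Put `J1 = J + 1`: so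
`σ (pw w f) = 0` for all `w` with `nl a w ≤ J` and there is `u` with `nl a u = J + 1`, `σ (pw u f) ≠ 0`;
stripping letters `a` at the front (`sg_step`), `u = x :: w` with `x ≠ a`, `nl a w = J`. By `min_word`
there are `x, w` with `nl a w ≤ J`, `σ (pw (x :: w) f) ≠ 0`, `w.length + 2 ≤ n`. Here `nl a w = J`
(otherwise `nl a (x :: w) ≤ J`). Let `c'` be the pattern of `w` (`WW_pattern`) and change its value at
`J` to `x`: put `c i = c' i` for `i ≠ J`, `c J = x` (`WW_congr`).
`F t = span {pw w f : nl a w ≤ t}`: invariant under `pw [a]`, increasing, and `pw [y]` maps `F t` to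
`F (t+1)` for every letter `y`. `F J ≤ ker σ`. `graded_charpoly` with `R = pw [a]`, `T i = pw [c i]`,
`k = J`, and `charpoly_oc`: `hh (J+1) n f - hh (J+1) (n-l) f ∈ F J ≤ ker σ` (the sum over the
coefficients of `X^n - X^(n-l)`: `Polynomial.sum_sub_index`/`sum_monomial_index`, or evaluate through
the linear map `p ↦ p.sum ...`; note `n - l < n`). Put `τ d = σ (hh (J+1) d f)`. By definition
`hh (J+1) (d+1) f = pw [a] (hh (J+1) d f) + pw [x] (hh J d f)`, so by `sg_step`
`τ (d+1) - τ d = σ (pw [x] (hh J d f)) = ∑_{v ∈ WW a c J d} σ (pw (x :: v) f)` (`hh_words`). Hence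
`∑_{d = n-l}^{n-1} ∑_{v ∈ WW a c J d} σ (pw (x :: v) f) = τ n - τ (n-l) = 0`. All words `x :: v` have
length `d + 1 ≤ n` (`WW_length`), so all terms are `≤ 0` by `hneg`, so all are `0`. Finally choose
`k` such that `d = w.length + k l` lies in `[n-l, n-1]` (`w.length ≤ n-2`; if `w.length ≥ n-l` take
`k = 0`). The word `v = w ++ replicate (k l) a` is in `WW a c J d` and `pw v f = pw w f` since `f` is
`pw (a^l)`-invariant. So `σ (pw (x :: w) f) = 0`, a contradiction.

PROOF of `extension_oc`. Let `k = (S ∩ cyc).card`, `l = ell`, `f0 = 1_S - k/l`,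
`f = pw (replicate (n-l) a) f0`. `f` is invariant by `rep_period`, `σ f = σ f0 = k - l (k/l) = 0`
(`sg_rep`, `card_cyc`). If the conclusion fails then for every word `u` of length `≤ n`:
`σ (pw u f) = σ (pw (u ++ a^(n-l)) f0) = |pre S (u ++ a^(n-l)) ∩ cyc| - k ≤ 0`, as the word has
length `≤ n + (n-l) = 2n - l`. By `ext_sat` all `σ (pw u f) = 0`. Take `u` a reset word, with value
`q0`: `pw u f` is the constant `f q0`, so `σ (pw u f) = l f q0`, `f q0 = f0 (q1)` with
`q1 = act δ q0 (a^(n-l))`, which is `1 - k/l > 0` or `-k/l < 0`. Contradiction.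
-/

namespace Pool.Agent.Work.MP_446a37_lc.OC

open Finset

variable {Q A : Type} [Fintype Q] [DecidableEq Q] {δ : Q → A → Q} {a : A} {c : Q}

/-- span of the vectors obtained with at most `t` letters different from `a` -/
private def Fl (δ : Q → A → Q) (a : A) (f : Q → ℚ) (t : ℕ) : Submodule ℚ (Q → ℚ) :=
  Submodule.span ℚ {g | ∃ w : List A, nl a w ≤ t ∧ g = pw δ w f}

private theorem mem_Fl (f : Q → ℚ) {t : ℕ} {w : List A} (hw : nl a w ≤ t) :
    pw δ w f ∈ Fl δ a f t := Submodule.subset_span ⟨w, hw, rfl⟩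

private theorem Fl_mono (f : Q → ℚ) {s t : ℕ} (h : s ≤ t) : Fl δ a f s ≤ Fl δ a f t :=
  Submodule.span_mono fun _ ⟨w, hw, e⟩ => ⟨w, hw.trans h, e⟩

private theorem Fl_le_ker {f : Q → ℚ} {t : ℕ} {σ : (Q → ℚ) →ₗ[ℚ] ℚ}
    (h : ∀ w : List A, nl a w ≤ t → σ (pw δ w f) = 0) (g : Q → ℚ) (hg : g ∈ Fl δ a f t) :
    σ g = 0 := by
  have : Fl δ a f t ≤ LinearMap.ker σ := by
    refine Submodule.span_le.2 ?_
    rintro _ ⟨w, hw, rfl⟩
    exact h w hw
  exact this hg

private theorem Fl_step (f : Q → ℚ) (x : A) (s t : ℕ)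
    (hx : ∀ w : List A, nl a w ≤ s → nl a (x :: w) ≤ t) (v : Q → ℚ) (hv : v ∈ Fl δ a f s) :
    pw δ [x] v ∈ Fl δ a f t := by
  have : Fl δ a f s ≤ (Fl δ a f t).comap (pw δ [x]) := by
    refine Submodule.span_le.2 ?_
    rintro _ ⟨w, hw, rfl⟩
    show pw δ [x] (pw δ w f) ∈ Fl δ a f t
    rw [← pw_cons]
    exact mem_Fl f (hx w hw)
  exact this hv

private theorem list_nonpos (L : List ℚ) (h : ∀ x ∈ L, x ≤ 0) : L.sum ≤ 0 := by
  induction L with
  | nil => simp
  | cons y L ih =>
    rw [List.sum_cons]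
    have h1 : y ≤ 0 := h y (by simp)
    have h2 := ih fun x hx => h x (by simp [hx])
    linarith

private theorem list_zero (L : List ℚ) (h : ∀ x ∈ L, x ≤ 0) (h0 : L.sum = 0) :
    ∀ x ∈ L, x = 0 := by
  induction L with
  | nil => simp
  | cons y L ih =>
    have h1 : y ≤ 0 := h y (by simp)
    have h2 : ∀ x ∈ L, x ≤ 0 := fun x hx => h x (by simp [hx])
    have h3 : L.sum ≤ 0 := list_nonpos L h2
    rw [List.sum_cons] at h0
    have hy : y = 0 := by linarith
    have hL : L.sum = 0 := by linarith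
    intro x hx
    rcases List.mem_cons.1 hx with rfl | hx
    · exact hy
    · exact ih h2 hL x hx

private theorem sum_charpoly {n l : ℕ} (hl : 0 < l) (hn : l ≤ n) (g : ℕ → Q → ℚ) :
    ((Polynomial.X ^ n - Polynomial.X ^ (n - l) : Polynomial ℚ).sum fun d x => x • g d) =
      g n - g (n - l) := by
  have hdeg : (Polynomial.X ^ n - Polynomial.X ^ (n - l) : Polynomial ℚ).natDegree < n + 1 := by
    refine lt_of_le_of_lt (Polynomial.natDegree_sub_le _ _) ?_
    rw [Polynomial.natDegree_X_pow, Polynomial.natDegree_X_pow]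
    omega
  rw [Polynomial.sum_over_range' _ (fun d => zero_smul ℚ (g d)) _ hdeg]
  simp only [Polynomial.coeff_sub, Polynomial.coeff_X_pow, sub_smul, ite_smul, one_smul,
    zero_smul, Finset.sum_sub_distrib]
  rw [Finset.sum_ite_eq' , Finset.sum_ite_eq', if_pos (by simp), if_pos (by simp)]

/-- powers of the period -/
private theorem per_pow (f : Q → ℚ) {l : ℕ} (hper : pw δ (List.replicate l a) f = f) (k : ℕ) :
    pw δ (List.replicate (k * l) a) f = f := by
  induction k with
  | zero => rw [Nat.zero_mul, List.replicate_zero, pw_nil]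
  | succ k ih => rw [Nat.succ_mul, List.replicate_add, pw_append, hper, ih]

private theorem nl_zero {w : List A} (h : nl a w = 0) : ∃ k, w = List.replicate k a := by
  induction w with
  | nil => exact ⟨0, rfl⟩
  | cons x w ih =>
    by_cases hx : x = a
    · subst hx
      rw [nl_cons_self] at h
      obtain ⟨k, rfl⟩ := ih h
      exact ⟨k + 1, rfl⟩
    · rw [nl_cons_ne hx] at h
      omega

theorem ext_sat (h : OneCl δ a c) (f : Q → ℚ)
    (hper : pw δ (List.replicate (ell δ a c) a) f = f) (hs : sg δ a c f = 0)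
    (hneg : ∀ u : List A, u.length ≤ Fintype.card Q → sg δ a c (pw δ u f) ≤ 0) (u : List A) :
    sg δ a c (pw δ u f) = 0 := by
  classical
  by_contra hu
  have hl : 0 < ell δ a c := ell_pos h
  have hln : ell δ a c ≤ Fintype.card Q := ell_le h
  have hex : ∃ m, ∃ u : List A, nl a u = m ∧ sg δ a c (pw δ u f) ≠ 0 := ⟨_, u, rfl, hu⟩
  obtain ⟨u1, hu1, hu1s⟩ := Nat.find_spec hex
  have hmin : ∀ w : List A, nl a w < Nat.find hex → sg δ a c (pw δ w f) = 0 := by
    intro w hw
    by_contra hc
    exact Nat.find_min hex hw ⟨w, rfl, hc⟩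
  have hpos : Nat.find hex ≠ 0 := by
    intro h0
    rw [h0] at hu1
    obtain ⟨k, rfl⟩ := nl_zero hu1
    exact hu1s (by rw [sg_rep h, hs])
  obtain ⟨J, hJ⟩ := Nat.exists_eq_succ_of_ne_zero hpos
  have hJ' : Nat.find hex = J + 1 := hJ
  rw [hJ'] at hu1 hmin
  have hlow : ∀ w : List A, nl a w ≤ J → sg δ a c (pw δ w f) = 0 :=
    fun w hw => hmin w (by omega)
  -- a word `x :: w`
  have h2 : ∃ x : A, ∃ w : List A, nl a w ≤ J ∧ sg δ a c (pw δ (x :: w) f) ≠ 0 := by
    have : ∀ u : List A, nl a u = J + 1 → sg δ a c (pw δ u f) ≠ 0 →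
        ∃ x : A, ∃ w : List A, nl a w ≤ J ∧ sg δ a c (pw δ (x :: w) f) ≠ 0 := by
      intro u
      induction u with
      | nil => intro h3; rw [nl_nil] at h3; omega
      | cons x w ih =>
        intro h3 h4
        by_cases hx : x = a
        · subst hx
          rw [nl_cons_self] at h3
          refine ih h3 ?_
          rw [pw_cons, sg_step h] at h4
          exact h4
        · rw [nl_cons_ne hx] at h3
          exact ⟨x, w, by omega, h4⟩
    exact this u1 hu1 hu1s
  obtain ⟨x, w, hwJ, hxw, hwlen⟩ := min_word δ a (sg δ a c) f J hlow h2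
  have hxa : x ≠ a := by
    rintro rfl
    rw [pw_cons, sg_step h] at hxw
    exact hxw (hlow w hwJ)
  have hwJ' : nl a w = J := by
    by_contra hne
    refine hxw (hlow (x :: w) ?_)
    rw [nl_cons_ne hxa]
    omega
  obtain ⟨c', hc'⟩ := WW_pattern a w
  rw [hwJ'] at hc'
  set cc : ℕ → A := fun i => if i = J then x else c' i with hcc
  have hccJ : cc J = x := by simp [hcc]
  have hWW : ∀ d, WW a cc J d = WW a c' J d := fun d => WW_congr a cc c' J d (by
    intro i hi
    simp [hcc, hi.ne])
  set R := pw δ [a] with hR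
  set T : ℕ → (Q → ℚ) →ₗ[ℚ] (Q → ℚ) := fun i => pw δ [cc i] with hT
  have hg := graded_charpoly R T (Fl δ a f) J
    (fun t _ v hv => Fl_step f a t t (fun w hw => by rwa [nl_cons_self]) v hv)
    (fun t _ => Fl_mono f (by omega))
    (fun t s _ v hv => Fl_step f (cc t) s (s + 1)
      (fun w hw => (nl_cons_le a (cc t) w).trans (by omega)) v hv)
    f (by
      have := mem_Fl (δ := δ) (a := a) f (t := 0) (w := []) (by rw [nl_nil])
      rwa [pw_nil] at this)
  rw [hR, charpoly_oc h, ← hR] at hg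
  rw [sum_charpoly hl hln (fun d => hh R T (J + 1) d f)] at hg
  have hzero := Fl_le_ker hlow _ hg
  rw [map_sub] at hzero
  -- telescoping
  set τ : ℕ → ℚ := fun d => sg δ a c (hh R T (J + 1) d f) with hτ
  have hτs : ∀ d, τ (d + 1) - τ d = ((WW a cc J d).map fun v => sg δ a c (pw δ (x :: v) f)).sum := by
    intro d
    have e1 : hh R T (J + 1) (d + 1) f = R (hh R T (J + 1) d f) + T J (hh R T J d f) := rfl
    have e2 : τ (d + 1) = τ d + sg δ a c (T J (hh R T J d f)) := by
      show sg δ a c (hh R T (J + 1) (d + 1) f) = _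
      rw [e1, map_add, hR, sg_step h]
    rw [e2, add_sub_cancel_left]
    show sg δ a c (pw δ [cc J] (hh R T J d f)) = _
    rw [hccJ, hR, hT, hh_words, map_list_sum, map_list_sum, List.map_map, List.map_map]
    congr 1
  have hterm : ∀ i < ell δ a c, ∀ v ∈ WW a cc J (Fintype.card Q - ell δ a c + i),
      sg δ a c (pw δ (x :: v) f) ≤ 0 := by
    intro i hi v hv
    refine hneg _ ?_
    rw [List.length_cons, WW_length a cc J _ v hv]
    omega
  have hsum : ∑ i ∈ range (ell δ a c),
      ((WW a cc J (Fintype.card Q - ell δ a c + i)).map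
        fun v => sg δ a c (pw δ (x :: v) f)).sum = 0 := by
    have e3 := Finset.sum_range_sub (fun i => τ (Fintype.card Q - ell δ a c + i)) (ell δ a c)
    simp only [← add_assoc] at e3
    rw [Finset.sum_congr rfl fun i _ => (hτs (Fintype.card Q - ell δ a c + i)).symm, e3]
    rw [Nat.sub_add_cancel hln]
    exact hzero
  have hall : ∀ i < ell δ a c, ∀ v ∈ WW a cc J (Fintype.card Q - ell δ a c + i),
      sg δ a c (pw δ (x :: v) f) = 0 := by
    intro i hi v hv
    have hnp : ∀ j ∈ range (ell δ a c), ((WW a cc J (Fintype.card Q - ell δ a c + j)).map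
        fun v => sg δ a c (pw δ (x :: v) f)).sum ≤ 0 := by
      intro j hj
      refine list_nonpos _ fun y hy => ?_
      obtain ⟨v', hv', rfl⟩ := List.mem_map.1 hy
      exact hterm j (mem_range.1 hj) v' hv'
    have h0 := (Finset.sum_eq_zero_iff_of_nonpos hnp).1 hsum i (mem_range.2 hi)
    refine list_zero _ ?_ h0 _ (List.mem_map.2 ⟨v, hv, rfl⟩)
    intro y hy
    obtain ⟨v', hv', rfl⟩ := List.mem_map.1 hy
    exact hterm i hi v' hv'
  -- shift into the window
  obtain ⟨k, i, hi, hki⟩ : ∃ k i, i < ell δ a c ∧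
      w.length + k * ell δ a c = Fintype.card Q - ell δ a c + i := by
    by_cases hcase : Fintype.card Q - ell δ a c ≤ w.length
    · exact ⟨0, w.length - (Fintype.card Q - ell δ a c), by omega, by omega⟩
    · set m := Fintype.card Q - ell δ a c - w.length with hm
      have h5 := Nat.div_add_mod m (ell δ a c)
      have h6 := Nat.mod_lt m hl
      by_cases h7 : m % ell δ a c = 0
      · refine ⟨m / ell δ a c, 0, hl, ?_⟩
        rw [h7, Nat.add_zero, Nat.mul_comm] at h5
        omega
      · refine ⟨m / ell δ a c + 1, ell δ a c - m % ell δ a c, by omega, ?_⟩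
        rw [Nat.add_mul, Nat.one_mul]
        rw [Nat.mul_comm] at h5
        omega
  have hv := hall i hi (w ++ List.replicate (k * ell δ a c) a) (by
    rw [hWW, ← hki]
    exact hc' _)
  refine hxw ?_
  rw [pw_cons, pw_append, per_pow f hper, ← pw_cons] at hv
  exact hv

theorem extension_oc (h : OneCl δ a c) (hsync : ∃ w, IsReset δ w) (S : Finset Q)
    (h1 : 0 < (S ∩ cyc δ a c).card) (h2 : (S ∩ cyc δ a c).card < ell δ a c) :
    ∃ u : List A, u.length ≤ 2 * Fintype.card Q - ell δ a c ∧
      (S ∩ cyc δ a c).card < (pre δ S u ∩ cyc δ a c).card := by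
  classical
  by_contra hcon
  push Not at hcon
  have hl : 0 < ell δ a c := ell_pos h
  have hln : ell δ a c ≤ Fintype.card Q := ell_le h
  have hlq : (ell δ a c : ℚ) ≠ 0 := by exact_mod_cast hl.ne'
  set k := (S ∩ cyc δ a c).card with hk
  set f0 : Q → ℚ := fun q => (if q ∈ S then 1 else 0) - (k : ℚ) / ell δ a c with hf0
  set N := Fintype.card Q - ell δ a c with hN
  set f := pw δ (List.replicate N a) f0 with hf
  have hval : ∀ u : List A, sg δ a c (pw δ u f0) = ((pre δ S u ∩ cyc δ a c).card : ℚ) - k := by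
    intro u
    rw [sg_apply]
    simp only [pw_apply, hf0]
    rw [Finset.sum_sub_distrib, Finset.sum_const, card_cyc h, nsmul_eq_mul,
      mul_div_cancel₀ _ hlq]
    congr 1
    rw [Finset.sum_ite, Finset.sum_const_zero, add_zero, Finset.sum_const, nsmul_eq_mul, mul_one]
    congr 2
    ext q
    simp only [pre, mem_filter, mem_inter, mem_univ, true_and]
    exact and_comm
  have hper : pw δ (List.replicate (ell δ a c) a) f = f := by
    ext q
    rw [hf, ← pw_append, ← List.replicate_add, pw_apply, pw_apply, Nat.add_comm,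
      rep_period h q (by omega)]
  have hs : sg δ a c f = 0 := by
    rw [hf, sg_rep h]
    have h3 := hval []
    rw [pw_nil] at h3
    rw [h3]
    have h4 : pre δ S [] = S := by ext q; simp [pre, act_nil]
    rw [h4, ← hk, sub_self]
  have hneg : ∀ u : List A, u.length ≤ Fintype.card Q → sg δ a c (pw δ u f) ≤ 0 := by
    intro u hu
    rw [hf, ← pw_append, hval, sub_nonpos]
    have h3 := hcon (u ++ List.replicate N a) (by
      rw [List.length_append, List.length_replicate]
      omega)
    exact_mod_cast h3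
  obtain ⟨w, hw⟩ := hsync
  have h5 := ext_sat h f hper hs hneg w
  have h6 : ∀ q, pw δ w f q = f (act δ c w) := by
    intro q
    rw [pw_apply, hw q c]
  rw [sg_apply, Finset.sum_congr rfl fun q _ => h6 q, Finset.sum_const, card_cyc h,
    nsmul_eq_mul] at h5
  have h7 : f (act δ c w) = 0 := by
    rcases mul_eq_zero.1 h5 with h8 | h8
    · exact absurd h8 hlq
    · exact h8
  rw [hf, pw_apply, hf0] at h7
  simp only at h7
  have hkq : (k : ℚ) / ell δ a c < 1 := by
    rw [div_lt_one (by exact_mod_cast hl)]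
    exact_mod_cast h2
  have hkp : 0 < (k : ℚ) / ell δ a c := by
    refine div_pos (by exact_mod_cast h1) (by exact_mod_cast hl)
  split_ifs at h7 <;> linarith

end Pool.Agent.Work.MP_446a37_lc.OC
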