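import Pool.Agent.Work.MP_446a37_lc.OC.Defs

/-!
MODULE Wd (S-M). The operators `hh` as sums over words; patterns of words.

* `hh_words`: induction following the definitions of `hh` and `WW` (induction on `t`, inner induction on
  `d`): `pw δ (a :: w) f = pw δ [a] (pw δ w f)` (`pw_cons`), `(pw δ [a])^d f = pw δ (replicate d a) f`;
  `List.map_append`, `List.sum_append`, `map_list_sum`, `List.map_map`.
* `WW_length`, `WW_nl`: same induction (`nl a (a :: w) = nl a w`, `nl a (x :: w) ≤ nl a w + 1`,
  `nl a (replicate d a) = 0`).
* `WW_congr`: `WW a c t d` depends only on `c 0, ..., c (t-1)`.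
* `WW_pattern`: induction on `w`. For `w = []`: `t = 0`. For `w = a :: w'` take the `c` of `w'`; if
  `nl a w = 0` then `w` is a power of `a`; if `nl a w' = t + 1` then `a :: (w' ++ replicate k a)` is in the
  first part of `WW a c (t+1) (d+1)` (for `t = 0`: `WW a c 0 d = [replicate d a]`, show
  `w' ++ replicate k a = replicate d a` from membership). For `w = x :: w'`, `x ≠ a`, `nl a w' = t`: take
  `c' = fun i => if i = t then x else c i` and use `WW_congr`; `x :: (w' ++ ...)` is in the second part.
-/

namespace Pool.Agent.Work.MP_446a37_lc.OC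

open Finset

variable {Q A : Type} [Fintype Q] [DecidableEq Q]

theorem nl_nil (a : A) : nl a [] = 0 := by
  simp [nl]

theorem nl_cons_self (a : A) (w : List A) : nl a (a :: w) = nl a w := by
  simp [nl]

theorem nl_cons_ne {a x : A} (hx : x ≠ a) (w : List A) : nl a (x :: w) = nl a w + 1 := by
  simp [nl, hx]

theorem nl_cons_le (a x : A) (w : List A) : nl a (x :: w) ≤ nl a w + 1 := by
  by_cases hx : x = a
  · subst hx
    rw [nl_cons_self]
    exact Nat.le_succ _
  · rw [nl_cons_ne hx]

theorem nl_append (a : A) (u v : List A) : nl a (u ++ v) = nl a u + nl a v := by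
  simp [nl, List.countP_append]

theorem nl_replicate (a : A) (k : ℕ) : nl a (List.replicate k a) = 0 := by
  induction k with
  | zero => exact nl_nil a
  | succ k ih => rw [List.replicate_succ, nl_cons_self, ih]

private theorem pw_pow (δ : Q → A → Q) (a : A) (d : ℕ) (f : Q → ℚ) :
    ((pw δ [a]) ^ d) f = pw δ (List.replicate d a) f := by
  induction d with
  | zero => simp [pw_nil]
  | succ d ih =>
    rw [pow_succ', Module.End.mul_apply, ih, List.replicate_succ, pw_cons δ a (List.replicate d a)]

private theorem sum_cons_words (δ : Q → A → Q) (x : A) (l : List (List A)) (f : Q → ℚ) :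
    ((l.map (x :: ·)).map fun w => pw δ w f).sum = pw δ [x] ((l.map fun w => pw δ w f).sum) := by
  induction l with
  | nil => simp
  | cons w l ih =>
    rw [List.map_cons, List.map_cons, List.sum_cons, ih, List.map_cons, List.sum_cons, map_add,
      pw_cons δ x w]

theorem hh_words (δ : Q → A → Q) (a : A) (c : ℕ → A) (t d : ℕ) (f : Q → ℚ) :
    hh (pw δ [a]) (fun i => pw δ [c i]) t d f = ((WW a c t d).map fun w => pw δ w f).sum := by
  induction t generalizing d with
  | zero =>
    rw [hh, WW, pw_pow]
    simp
  | succ t ih =>
    induction d with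
    | zero => simp [hh, WW]
    | succ d ihd =>
      rw [hh, WW, List.map_append, List.sum_append, sum_cons_words, sum_cons_words, ← ihd, ← ih d]
      rfl

theorem WW_length (a : A) (c : ℕ → A) (t d : ℕ) (w : List A) (hw : w ∈ WW a c t d) :
    w.length = d := by
  induction t generalizing d w with
  | zero =>
    rw [WW, List.mem_singleton] at hw
    rw [hw, List.length_replicate]
  | succ t ih =>
    induction d generalizing w with
    | zero => simp [WW] at hw
    | succ d ihd =>
      rw [WW, List.mem_append, List.mem_map, List.mem_map] at hw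
      rcases hw with ⟨v, hv, rfl⟩ | ⟨v, hv, rfl⟩
      · rw [List.length_cons, ihd v hv]
      · rw [List.length_cons, ih d v hv]

theorem WW_nl (a : A) (c : ℕ → A) (t d : ℕ) (w : List A) (hw : w ∈ WW a c t d) :
    nl a w ≤ t := by
  induction t generalizing d w with
  | zero =>
    rw [WW, List.mem_singleton] at hw
    rw [hw, nl_replicate]
  | succ t ih =>
    induction d generalizing w with
    | zero => simp [WW] at hw
    | succ d ihd =>
      rw [WW, List.mem_append, List.mem_map, List.mem_map] at hw
      rcases hw with ⟨v, hv, rfl⟩ | ⟨v, hv, rfl⟩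
      · rw [nl_cons_self]
        exact ihd v hv
      · exact (nl_cons_le a (c t) v).trans (Nat.succ_le_succ (ih d v hv))

theorem WW_congr (a : A) (c c' : ℕ → A) (t d : ℕ) (h : ∀ i < t, c i = c' i) :
    WW a c t d = WW a c' t d := by
  induction t generalizing d with
  | zero => rw [WW, WW]
  | succ t ih =>
    induction d with
    | zero => rw [WW, WW]
    | succ d ihd =>
      rw [WW, WW, ihd, ih d (fun i hi => h i (Nat.lt_succ_of_lt hi)), h t (Nat.lt_succ_self t)]

theorem WW_pattern (a : A) (w : List A) :
    ∃ c : ℕ → A, ∀ k : ℕ, w ++ List.replicate k a ∈ WW a c (nl a w) (w.length + k) := by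
  induction w with
  | nil =>
    refine ⟨fun _ => a, fun k => ?_⟩
    rw [nl_nil, WW, List.mem_singleton, List.nil_append, List.length_nil, Nat.zero_add]
  | cons x w ih =>
    obtain ⟨c, hc⟩ := ih
    by_cases hx : x = a
    · subst hx
      refine ⟨c, fun k => ?_⟩
      have hk := hc k
      have hlen : (x :: w).length + k = (w.length + k) + 1 := by
        rw [List.length_cons]; omega
      rw [nl_cons_self, hlen, List.cons_append]
      cases hn : nl x w with
      | zero =>
        rw [hn, WW, List.mem_singleton] at hk
        rw [WW, List.mem_singleton, hk, List.replicate_succ]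
      | succ t =>
        rw [hn] at hk
        rw [WW, List.mem_append, List.mem_map]
        exact Or.inl ⟨_, hk, rfl⟩
    · refine ⟨fun i => if i = nl a w then x else c i, fun k => ?_⟩
      have hlen : (x :: w).length + k = (w.length + k) + 1 := by
        rw [List.length_cons]; omega
      rw [nl_cons_ne hx, hlen, List.cons_append, WW, List.mem_append]
      right
      rw [List.mem_map]
      refine ⟨w ++ List.replicate k a, ?_, ?_⟩
      · rw [WW_congr a _ c (nl a w) (w.length + k)]
        · exact hc k
        · intro i hi
          simp [Nat.ne_of_lt hi]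
      · simp

end Pool.Agent.Work.MP_446a37_lc.OC
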